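import Pool.Agent.T2h30.IP.Stm

set_option autoImplicit false

/-!
# Bass-Serre theory, amalgam case, without torsion-freeness
-/

namespace Pool.Agent.T2h30.IP.BSA

open Pool.Agent.T2h30.IP Pool.Agent.H599R3.RH

theorem t_BSA (hPP : S_PP) : S_BSA := by
  intro G V E _ _ _ T e he hc
  have hgen : fixCl T e (T.d0 e) ⊔ fixCl T e (T.d1 e) = ⊤ := by
    set Γ := fixCl T e (T.d0 e) ⊔ fixCl T e (T.d1 e) with hΓ
    have hA : fixCl T e (T.d0 e) ≤ Γ := le_sup_left
    have hB : fixCl T e (T.d1 e) ≤ Γ := le_sup_right
    have key0 : ∀ k : G, (∃ γ ∈ Γ, Sim T e (k • T.d0 e) (γ • T.d0 e) ∨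
        Sim T e (k • T.d0 e) (γ • T.d1 e)) → k ∈ Γ := by
      rintro k ⟨γ, hγ, h | h⟩
      · have h2 := h.smul γ⁻¹
        rw [inv_smul_smul, smul_smul] at h2
        have := Γ.mul_mem hγ (hA h2)
        rwa [mul_inv_cancel_left] at this
      · have h2 := h.smul γ⁻¹
        rw [inv_smul_smul, smul_smul] at h2
        exact absurd h2 (hc _)
    have key1 : ∀ k : G, (∃ γ ∈ Γ, Sim T e (k • T.d1 e) (γ • T.d0 e) ∨
        Sim T e (k • T.d1 e) (γ • T.d1 e)) → k ∈ Γ := by
      rintro k ⟨γ, hγ, h | h⟩
      · have h2 := (h.smul k⁻¹).symm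
        rw [inv_smul_smul, smul_smul] at h2
        exact absurd h2 (hc _)
      · have h2 := h.smul γ⁻¹
        rw [inv_smul_smul, smul_smul] at h2
        have := Γ.mul_mem hγ (hB h2)
        rwa [mul_inv_cancel_left] at this
    have hall : ∀ v, ∃ γ ∈ Γ, Sim T e v (γ • T.d0 e) ∨ Sim T e v (γ • T.d1 e) := by
      intro v
      apply T.all (Q := fun v => ∃ γ ∈ Γ, Sim T e v (γ • T.d0 e) ∨ Sim T e v (γ • T.d1 e))
        (u := T.d0 e)
      · intro e0
        by_cases h0 : ∃ k : G, k • e = e0
        · obtain ⟨k, rfl⟩ := h0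
          rw [T.s0, T.s1]
          constructor
          · intro h
            exact ⟨k, key1 k h, Or.inl (Sim.refl _ _)⟩
          · intro h
            exact ⟨k, key0 k h, Or.inr (Sim.refl _ _)⟩
        · push Not at h0
          have h1 := sim_of_not (T := T) h0
          constructor
          · rintro ⟨γ, hγ, h⟩
            exact ⟨γ, hγ, h.imp (fun h => h1.symm.trans h) (fun h => h1.symm.trans h)⟩
          · rintro ⟨γ, hγ, h⟩
            exact ⟨γ, hγ, h.imp (fun h => h1.trans h) (fun h => h1.trans h)⟩
      · exact ⟨1, Γ.one_mem, Or.inl (by rw [one_smul]; exact Sim.refl _ _)⟩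
    rw [eq_top_iff]
    intro g _
    exact key0 g (hall _)
  by_cases hA : ∃ a ∈ fixCl T e (T.d0 e), a ≠ 1
  · by_cases hB : ∃ a ∈ fixCl T e (T.d1 e), a ≠ 1
    · left
      refine hPP G V _ _ hA hB hgen (fun v => ¬ side T e v) (fun v => side T e v)
        (T.d0 e) (side0 T e) ⟨_, side1 T e⟩ (fun x h => h) ?_ ?_
      · intro a ha ha1 y hy
        have hne : a • e ≠ e := fun h => ha1 (he a h)
        have h1 := quad T hne (a • y)
        have h0 := side_smul T a e y
        rw [side_smul] at h1
        have h2 : ¬ side T (a • e) (T.d0 e) := by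
          rw [← ha a, side_smul]
          exact side0 T e
        have h3 : ¬ side T e (T.d0 (a • e)) := by
          rw [T.s0]
          have := ha 1
          rw [one_smul] at this
          rw [this]
          exact side0 T e
        refine ⟨by tauto, ?_⟩
        intro h4
        rw [h4] at h0
        exact h2 (h0.2 hy)
      · intro a ha ha1 y hy
        have hne : a • e ≠ e := fun h => ha1 (he a h)
        have h1 := quad T hne (a • y)
        rw [side_smul] at h1
        have h2 : side T (a • e) (T.d0 e) := by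
          rw [← side_ne T hne.symm, ← ha a, side_smul]
          exact side1 T e
        have h3 : side T e (T.d0 (a • e)) := by
          rw [← side_ne T hne, T.s1]
          have := ha 1
          rw [one_smul] at this
          rw [this]
          exact side1 T e
        tauto
    · right
      push Not at hB
      refine ⟨T.d0 e, ?_⟩
      have : fixCl T e (T.d1 e) = ⊥ := by
        rw [eq_bot_iff]
        intro a ha
        exact hB a ha
      rw [this, sup_bot_eq] at hgen
      intro g
      rw [← mem_fixCl, hgen]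
      trivial
  · right
    push Not at hA
    refine ⟨T.d1 e, ?_⟩
    have : fixCl T e (T.d0 e) = ⊥ := by
      rw [eq_bot_iff]
      intro a ha
      exact hA a ha
    rw [this, bot_sup_eq] at hgen
    intro g
    rw [← mem_fixCl, hgen]
    trivial

end Pool.Agent.T2h30.IP.BSA
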