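import Pool.Agent.T2h30.IP.Stm

set_option autoImplicit false

/-!
# Bass-Serre theory, HNN case, without torsion-freeness
-/

namespace Pool.Agent.T2h30.IP.BSH

open Pool.Agent.T2h30.IP Pool.Agent.H599R3.RH

/-- a cyclic group generated by an element of infinite order -/
theorem infCyc {G : Type} [Group G] (t : G) (hg : ∀ g : G, g ∈ Subgroup.zpowers t)
    (h : ∀ n : ℕ, n ≠ 0 → t ^ n ≠ 1) : InfCyc G := by
  have hinj : Function.Injective (zpowersHom G t) := by
    rw [injective_iff_map_eq_one]
    intro z hz
    rw [zpowersHom_apply] at hz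
    have h0 : (Multiplicative.toAdd z) = 0 := by
      by_contra hne
      have hn : (Multiplicative.toAdd z).natAbs ≠ 0 := Int.natAbs_ne_zero.2 hne
      apply h _ hn
      rcases Int.natAbs_eq (Multiplicative.toAdd z) with h2 | h2
      · rw [h2, zpow_natCast] at hz
        exact hz
      · rw [h2, zpow_neg, zpow_natCast, inv_eq_one] at hz
        exact hz
    exact h0
  have hsur : Function.Surjective (zpowersHom G t) := by
    intro g
    obtain ⟨n, hn⟩ := hg g
    exact ⟨Multiplicative.ofAdd n, by rw [zpowersHom_apply]; exact hn⟩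
  exact ⟨(MulEquiv.ofBijective _ ⟨hinj, hsur⟩).symm⟩

theorem t_BSH (hPP : S_PP) : S_BSH := by
  intro G V E _ _ _ T e he t ht
  have hd01 : ¬ Sim T e (T.d0 e) (T.d1 e) := by
    have := not_sim (T := T) e 1
    simpa using this
  have ht' : Sim T e (t⁻¹ • T.d1 e) (T.d0 e) := by
    have := (ht.smul t⁻¹).symm
    rwa [inv_smul_smul] at this
  have htA : t ∉ fixCl T e (T.d0 e) := by
    intro h
    exact hd01 ((mem_fixCl.1 h).symm.trans ht)
  have ht1 : t ≠ 1 := by
    intro h
    rw [h, one_smul] at ht
    exact hd01 ht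
  have hgen : fixCl T e (T.d0 e) ⊔ Subgroup.zpowers t = ⊤ := by
    set Γ := fixCl T e (T.d0 e) ⊔ Subgroup.zpowers t with hΓ
    have hA : fixCl T e (T.d0 e) ≤ Γ := le_sup_left
    have hB : t ∈ Γ := (le_sup_right : Subgroup.zpowers t ≤ Γ) (Subgroup.mem_zpowers t)
    have key0 : ∀ k : G, (∃ γ ∈ Γ, Sim T e (k • T.d0 e) (γ • T.d0 e)) → k ∈ Γ := by
      rintro k ⟨γ, hγ, h⟩
      have h2 := h.smul γ⁻¹
      rw [inv_smul_smul, smul_smul] at h2
      have := Γ.mul_mem hγ (hA h2)
      rwa [mul_inv_cancel_left] at this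
    have key1 : ∀ k : G, (∃ γ ∈ Γ, Sim T e (k • T.d1 e) (γ • T.d0 e)) → k ∈ Γ := by
      rintro k ⟨γ, hγ, h⟩
      have h2 : Sim T e ((k * t) • T.d0 e) (γ • T.d0 e) := by
        rw [mul_smul]
        exact (ht.smul k).trans h
      have := Γ.mul_mem (key0 _ ⟨γ, hγ, h2⟩) (Γ.inv_mem hB)
      rwa [mul_inv_cancel_right] at this
    have hall : ∀ v, ∃ γ ∈ Γ, Sim T e v (γ • T.d0 e) := by
      intro v
      apply T.all (Q := fun v => ∃ γ ∈ Γ, Sim T e v (γ • T.d0 e)) (u := T.d0 e)
      · intro e0
        by_cases h0 : ∃ k : G, k • e = e0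
        · obtain ⟨k, rfl⟩ := h0
          rw [T.s0, T.s1]
          constructor
          · intro h
            exact ⟨k, key1 k h, Sim.refl _ _⟩
          · intro h
            refine ⟨k * t, Γ.mul_mem (key0 k h) hB, ?_⟩
            rw [mul_smul]
            exact (ht.smul k).symm
        · push Not at h0
          have h1 := sim_of_not (T := T) h0
          constructor
          · rintro ⟨γ, hγ, h⟩
            exact ⟨γ, hγ, h1.symm.trans h⟩
          · rintro ⟨γ, hγ, h⟩
            exact ⟨γ, hγ, h1.trans h⟩
      · exact ⟨1, Γ.one_mem, by rw [one_smul]; exact Sim.refl _ _⟩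
    rw [eq_top_iff]
    intro g _
    exact key0 g (hall _)
  -- nesting
  have hne : t • e ≠ e := fun h => ht1 (he t h)
  have nest : ∀ v, side T (t • e) v → side T e v := by
    intro v hv
    have h1 := quad T hne v
    have h2 : ¬ side T (t • e) (T.d0 e) := by
      rw [← side_ne T hne.symm, ← ht t, side_smul]
      exact side0 T e
    have h3 : side T e (T.d0 (t • e)) := by
      rw [T.s0]
      have := ht 1
      rw [one_smul] at this
      rw [this]
      exact side1 T e
    tauto
  have nest' : ∀ v, side T e v → side T (t⁻¹ • e) v := by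
    intro v hv
    rw [← side_smul']
    apply nest
    rw [side_smul]
    exact hv
  have s00 : ¬ side T e (T.d0 e) := side0 T e
  have s0t : side T (t⁻¹ • e) (T.d0 e) := by
    rw [← ht' t⁻¹, side_smul]
    exact side1 T e
  by_cases hA : ∃ a ∈ fixCl T e (T.d0 e), a ≠ 1
  · left
    refine hPP G V _ _ hA ⟨t, Subgroup.mem_zpowers t, ht1⟩ hgen
      (fun v => ¬ side T e v ∧ side T (t⁻¹ • e) v) (fun v => side T e v ∨ ¬ side T (t⁻¹ • e) v)
      (T.d0 e) ⟨s00, s0t⟩ ⟨T.d1 e, Or.inl (side1 T e)⟩ (by intro x h; tauto) ?_ ?_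
    · intro a ha ha1 y hy
      have hi : ∀ b : G, b ∈ fixCl T e (T.d0 e) → b ≠ t ∧ b * t ≠ 1 := by
        intro b hb
        refine ⟨fun h => htA (h ▸ hb), fun h => htA ?_⟩
        rw [← eq_inv_iff_mul_eq_one] at h
        rw [h] at hb
        have := inv_mem hb
        rwa [inv_inv] at this
      -- values at `d0 e`
      have sa0 : ¬ side T (a • e) (T.d0 e) := by
        rw [← ha a, side_smul]; exact side0 T e
      have sat : side T ((a * t⁻¹) • e) (T.d0 e) := by
        rw [← ha (a * t⁻¹), mul_smul, side_smul]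
        exact s0t
      -- distinctness
      have n1 : a • e ≠ e := fun h => ha1 (he a h)
      have n2 : a • e ≠ t⁻¹ • e := by
        intro h
        have h2 : (t * a) • e = e := by rw [mul_smul, h, smul_inv_smul]
        have h3 := he _ h2
        have h4 : a * t = 1 := by
          rw [mul_eq_one_iff_eq_inv] at h3
          rw [h3]; simp
        exact (hi a ha).2 h4
      have n3 : (a * t⁻¹) • e ≠ e := by
        intro h
        have h3 := he _ h
        rw [mul_inv_eq_one] at h3
        exact (hi a ha).1 h3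
      have n4 : (a * t⁻¹) • e ≠ t⁻¹ • e := by
        intro h
        have h2 : (t * (a * t⁻¹)) • e = e := by rw [mul_smul, h, smul_inv_smul]
        have h3 := he _ h2
        apply ha1
        have : a = t⁻¹ * (t * (a * t⁻¹)) * t := by group
        rw [this, h3]; group
      -- `d0` of the edges
      have c1 : ∀ k : G, side T (k • e) (T.d0 (a • e)) ↔ side T (k • e) (T.d0 e) := by
        intro k; rw [T.s0]; exact ha k
      have c2 : ∀ k : G, k • e ≠ t⁻¹ • e →
          (side T (k • e) (T.d0 (t⁻¹ • e)) ↔ side T (k • e) (T.d0 e)) := by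
        intro k hk
        rw [← side_ne T hk.symm, T.s1]
        exact ht' k
      have c3 : ∀ k : G, k • e ≠ (a * t⁻¹) • e →
          (side T (k • e) (T.d0 ((a * t⁻¹) • e)) ↔ side T (k • e) (T.d0 e)) := by
        intro k hk
        rw [← side_ne T hk.symm, T.s1, mul_smul]
        exact ((ht'.smul a).trans ha) k
      have c1' := c1 1
      have c1t := c1 t⁻¹
      have c2a := c2 a n2
      have c2t := c2 (a * t⁻¹) n4
      have c31 := c3 1 (by rw [one_smul]; exact n3.symm)
      have c3t := c3 t⁻¹ n4.symm
      rw [one_smul] at c1' c31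
      have q1 := (quad T n1 (a • y)).imp (fun h hp => sa0 (h.1 hp))
        (fun h hp => s00 (c1'.1 (h.1 hp)))
      have q2 := (quad T n2 (a • y)).imp (fun h hp => sa0 (c2a.1 (h.1 hp)))
        (fun h => h.2 (c1t.2 s0t))
      have q3 := (quad T n3 (a • y)).imp (fun h => h.2 sat)
        (fun h hp => s00 (c31.1 (h.1 hp)))
      have q4 := (quad T n4 (a • y)).imp (fun h => h.2 (c2t.2 sat))
        (fun h => h.2 (c3t.2 s0t))
      have e1 : side T (a • e) (a • y) ↔ side T e y := side_smul T a e y
      have e2 : side T ((a * t⁻¹) • e) (a • y) ↔ side T (t⁻¹ • e) y := by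
        rw [mul_smul]; exact side_smul T a _ y
      have e3 : a • y ≠ T.d0 e := by
        intro h
        rw [h] at e1 e2
        rcases hy with hy | hy
        · exact sa0 (e1.2 hy)
        · exact hy (e2.1 sat)
      refine ⟨?_, e3⟩
      clear e3 c2t c31 c3t c1' c1t c2a c1 c2 c3 n1 n2 n3 n4 sat sa0 s0t s00 hi nest nest'
      rcases hy with hy | hy
      · rw [← e1] at hy
        exact ⟨fun h => q1.elim (fun h' => h' hy) (fun h' => h' h),
          q2.elim (fun h' => absurd hy h') id⟩
      · rw [← e2] at hy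
        exact ⟨fun h => q3.elim hy (fun h' => h' h), q4.elim (fun h' => absurd h' hy) id⟩
    · rintro b ⟨n, rfl⟩ hb1 x ⟨hx1, hx2⟩
      beta_reduce at hb1 ⊢
      rcases n with n | n
      · -- nonnegative
        rw [Int.ofNat_eq_natCast, zpow_natCast] at hb1 ⊢
        obtain ⟨m, rfl⟩ : ∃ m, n = m + 1 := by
          cases n with
          | zero => exact absurd (pow_zero t) hb1
          | succ m => exact ⟨m, rfl⟩
        left
        clear hb1
        induction m with
        | zero =>
          rw [zero_add, pow_one, side_smul']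
          exact hx2
        | succ m ih =>
          rw [pow_succ', mul_smul, side_smul']
          exact nest' _ ih
      · right
        rw [zpow_negSucc, ← inv_pow]
        clear hb1
        induction n with
        | zero =>
          rw [zero_add, pow_one, side_smul]
          exact hx1
        | succ m ih =>
          rw [pow_succ', mul_smul, side_smul]
          exact fun h => ih (nest' _ h)
  · right
    push Not at hA
    have : fixCl T e (T.d0 e) = ⊥ := by
      rw [eq_bot_iff]
      intro a ha
      exact hA a ha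
    rw [this, bot_sup_eq] at hgen
    refine infCyc t (fun g => by rw [hgen]; trivial) ?_
    intro n hn0 hn
    obtain ⟨m, rfl⟩ : ∃ m, n = m + 1 := ⟨n - 1, by omega⟩
    -- `d0 e` is on the positive side of all `t⁻ⁿ • e`, `n > 0`
    have h1 : ∀ m : ℕ, side T ((t⁻¹) ^ (m + 1) • e) (T.d0 e) := by
      intro m
      induction m with
      | zero => rw [zero_add, pow_one]; exact s0t
      | succ m ih =>
        have h2 := side_smul T ((t⁻¹) ^ (m + 1)) (t⁻¹ • e) (((t⁻¹) ^ (m + 1))⁻¹ • T.d0 e)
        rw [smul_inv_smul, smul_smul, ← pow_succ] at h2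
        rw [h2]
        apply nest'
        rw [← side_smul T ((t⁻¹) ^ (m + 1)), smul_inv_smul]
        exact ih
    have h2 := h1 m
    rw [inv_pow, hn, inv_one, one_smul] at h2
    exact s00 h2

end Pool.Agent.T2h30.IP.BSH
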