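import Pool.Agent.T2h30.IP.Stm
import Pool.Agent.Q32.DP.COMPL

set_option autoImplicit false

/-!
# CMP (helper94): completeness of the rules
-/

namespace Pool.Agent.T2h30.IP.CMP

open Pool.Agent.Q223.IS Pool.Agent.Q32.DP Pool.Agent.T2h30.IP

/-- trivial groups are isomorphic -/
theorem triv_iso {A B : Type} [Group A] [Group B] (hA : ∀ x : A, x = 1) (hB : ∀ x : B, x = 1) :
    Nonempty (A ≃* B) :=
  ⟨{ toFun := fun _ => 1
     invFun := fun _ => 1
     left_inv := fun x => (hA x).symm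
     right_inv := fun x => (hB x).symm
     map_mul' := fun _ _ => (mul_one 1).symm }⟩

/-- nothing but the base -/
def noneD (p : Pres) : PG p ≃* PG p × PL [] where
  toFun x := (x, fun i => i.elim0)
  invFun y := y.1
  left_inv x := rfl
  right_inv y := by
    refine Prod.ext rfl ?_
    funext i
    exact i.elim0
  map_mul' x y := by
    refine Prod.ext rfl ?_
    funext i
    exact i.elim0

section

variable {V C : Pres → Prop} {g f : Pres × Pres →. Bool}

/-- a single direct factor -/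
theorem oneD (hc : S_CODES) (p : Pres) : Nonempty (PG p ≃* PG tc × PL [p]) := by
  obtain ⟨e⟩ := triv_iso (A := FreeAb 0) (B := PG tc) (fun x => Subsingleton.elim _ _) hc.1
  exact ⟨(COMPL.oneD p).trans (e.prodCongr (MulEquiv.refl _))⟩

theorem c_ff (n : ℕ) {p : Pres} (h : C p) : FF V C n p := by
  cases n with
  | zero => exact h
  | succ n => exact Or.inl h

theorem c_dd (n : ℕ) {p : Pres} (h : C p) : DD V C n p := by
  cases n with
  | zero => exact Or.inl h
  | succ n => exact Or.inl h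

theorem nv_dd (n : ℕ) {p : Pres} (h : NV V p) : DD V C n p := by
  cases n with
  | zero => exact Or.inr h
  | succ n => exact Or.inr (Or.inl h)

/-- the group of order two -/
theorem nv_c2 (hc : S_CODES) (hV : Hyp V C) : NV V c2 := by
  obtain ⟨e⟩ := hc.2.2.1
  refine ⟨hV.two c2 hc.2.2.1, ?_, ?_, ?_⟩
  · obtain ⟨x, hx⟩ := hc.2.2.2.2.1.1
    refine ⟨e.symm x, fun h => hx ?_⟩
    have := congrArg e h
    simpa using this
  · rintro ⟨e1⟩
    exact hc.2.2.2.2.2 ⟨e.symm.trans e1⟩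
  · rintro ⟨e1⟩
    obtain ⟨x, hx⟩ := hc.2.2.2.2.1.1
    rcases hc.2.2.2.2.1.2 Z2 Z2 ⟨e.symm.trans e1⟩ with h | h
    · exact hx (h x)
    · exact hx (h x)

theorem false_tc (hc : S_CODES) (hV : Hyp V C) (hg : Sol V g) {v : Pres} (hv : V v)
    (h : ∃ x : PG v, x ≠ 1) : false ∈ g (v, tc) := by
  refine (hg v tc hv (hV.triv tc hc.1)).2 ?_
  rintro ⟨e⟩
  obtain ⟨x, hx⟩ := h
  exact hx (e.injective ((hc.1 (e x)).trans (map_one e).symm))

theorem all (hc : S_CODES) (hdst : S_DST) (hfst : S_FST) (hV : Hyp V C) (hg : Sol V g)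
    (hf : Sol C f) (Der : Fact → Prop)
    (hD : ∀ l e, (∀ x ∈ l, Der x) → StepR V C g f (l, e) → Der e) (n : ℕ) :
    (∀ p, DD V C n p → Der (0, p, p)) ∧ (∀ p, FF V C n p → Der (1, p, p)) ∧
    (∀ p q, DD V C n p → DD V C n q → ¬ Nonempty (PG p ≃* PG q) → Der (2, p, q)) ∧
    (∀ p q, FF V C n p → FF V C n q → ¬ Nonempty (PG p ≃* PG q) → Der (2, p, q)) := by
  have d0 : ∀ p, C p → Der (0, p, p) := fun p hp =>
    hD [] (0, p, p) (by simp) (Or.inl ⟨rfl, rfl, Or.inl hp⟩)
  have d0' : ∀ p, NV V p → Der (0, p, p) := fun p hp => by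
    refine hD [] (0, p, p) (by simp) (Or.inl ⟨rfl, rfl, Or.inr (Or.inl
      ⟨hp.1, false_tc hc hV hg hp.1 hp.2.1, ?_, ?_⟩)⟩)
    · refine (hg p zc hp.1 (hV.int zc hc.2.1)).2 ?_
      rintro ⟨e⟩
      obtain ⟨e'⟩ := hc.2.1
      exact hp.2.2.1 ⟨e.trans e'⟩
    · refine (hg p dc hp.1 (hV.dih dc hc.2.2.2.1)).2 ?_
      rintro ⟨e⟩
      obtain ⟨e'⟩ := hc.2.2.2.1
      exact hp.2.2.2 ⟨e.trans e'⟩
  have d1 : ∀ p, C p → Der (1, p, p) := fun p hp =>
    hD [] (1, p, p) (by simp) (Or.inr (Or.inl ⟨rfl, rfl, Or.inl hp⟩))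
  have d2 : ∀ p q, C p → C q → ¬ Nonempty (PG p ≃* PG q) → Der (2, p, q) := fun p q hp hq h =>
    hD [] (2, p, q) (by simp) (Or.inr (Or.inr (Or.inr ⟨rfl, Or.inl
      ⟨hp, hq, (hf p q hp hq).2 h⟩⟩)))
  have formC : ∀ n p, C p → DForm V C n p := fun n p hp => by
    refine ⟨tc, [p], hV.triv tc hc.1, ?_, oneD hc p⟩
    intro k hk
    rw [List.mem_singleton.1 hk]
    exact c_ff n hp
  have formV : ∀ n p, V p → DForm V C n p := fun n p hp =>
    ⟨p, [], hp, by simp, ⟨noneD p⟩⟩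
  induction n with
  | zero =>
    have e1 : ∀ p, FF V C 0 p → Der (1, p, p) := fun p hp => d1 p hp
    have e2 : ∀ p q, FF V C 0 p → FF V C 0 q → ¬ Nonempty (PG p ≃* PG q) → Der (2, p, q) :=
      fun p q hp hq => d2 p q hp hq
    have toD : ∀ p, DD V C 0 p → DForm V C 0 p := by
      rintro p (hp | hp)
      · exact formC 0 p hp
      · exact formV 0 p hp.1
    refine ⟨?_, e1, ?_, e2⟩
    · rintro p (hp | hp)
      · exact d0 p hp
      · exact d0' p hp
    · intro p q hp hq hne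
      exact hdst V C g f hg Der hD 0 e1 e2 p q (toD p hp) (toD q hq) hne
  | succ n ih =>
    obtain ⟨a0, a1, b0, b1⟩ := ih
    have toD : ∀ p, DD V C (n + 1) p → DForm V C n p := by
      rintro p (hp | hp | ⟨v, L, hv, hL, -, he⟩)
      · exact formC n p hp
      · exact formV n p hp.1
      · exact ⟨v, L, hv, hL, he⟩
    have toF : ∀ p, FF V C (n + 1) p → FForm V C n p := by
      rintro p (hp | ⟨s, L, hL, -, -, he⟩)
      · refine ⟨0, [p], ?_, COMPL.oneF p⟩
        intro k hk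
        rw [List.mem_singleton.1 hk]
        exact c_dd n hp
      · exact ⟨s, L, hL, he⟩
    refine ⟨?_, ?_, ?_, ?_⟩
    · rintro p (hp | hp | ⟨v, L, hv, hL, h2, he⟩)
      · exact d0 p hp
      · exact d0' p hp
      · refine hD (L.map (fun k => (1, k, k))) (0, p, p) ?_ ?_
        · intro x hx
          obtain ⟨k, hk, rfl⟩ := List.mem_map.1 hx
          exact a1 k (hL k hk)
        · refine Or.inl ⟨rfl, rfl, Or.inr (Or.inr ⟨v, L, hv, ?_,
            fun k hk => List.mem_map.2 ⟨k, hk, rfl⟩, he⟩)⟩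
          rcases h2 with h2 | ⟨h2, h3⟩
          · exact Or.inl h2
          · exact Or.inr ⟨h2, false_tc hc hV hg hv h3⟩
    · rintro p (hp | ⟨s, L, hL, h2, h3, he⟩)
      · exact d1 p hp
      · rcases h3 with h3 | h3 | ⟨k0, hk0, h3⟩
        · refine hD (L.map (fun k => (0, k, k))) (1, p, p) ?_ ?_
          · intro x hx
            obtain ⟨k, hk, rfl⟩ := List.mem_map.1 hx
            exact a0 k (hL k hk)
          · exact Or.inr (Or.inl ⟨rfl, rfl, Or.inr ⟨s, L, h2, Or.inl h3,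
              fun k hk => List.mem_map.2 ⟨k, hk, rfl⟩, he⟩⟩)
        · refine hD (L.map (fun k => (0, k, k))) (1, p, p) ?_ ?_
          · intro x hx
            obtain ⟨k, hk, rfl⟩ := List.mem_map.1 hx
            exact a0 k (hL k hk)
          · exact Or.inr (Or.inl ⟨rfl, rfl, Or.inr ⟨s, L, h2, Or.inr (Or.inl h3),
              fun k hk => List.mem_map.2 ⟨k, hk, rfl⟩, he⟩⟩)
        · refine hD ((2, k0, c2) :: L.map (fun k => (0, k, k))) (1, p, p) ?_ ?_
          · intro x hx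
            rcases List.mem_cons.1 hx with rfl | hx
            · refine b0 k0 c2 (hL k0 hk0) (nv_dd n (nv_c2 hc hV)) ?_
              rintro ⟨e⟩
              obtain ⟨e'⟩ := hc.2.2.1
              exact h3 ⟨e.trans e'⟩
            · obtain ⟨k, hk, rfl⟩ := List.mem_map.1 hx
              exact a0 k (hL k hk)
          · exact Or.inr (Or.inl ⟨rfl, rfl, Or.inr ⟨s, L, h2,
              Or.inr (Or.inr ⟨k0, hk0, List.mem_cons_self⟩),
              fun k hk => List.mem_cons_of_mem _ (List.mem_map.2 ⟨k, hk, rfl⟩), he⟩⟩)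
    · intro p q hp hq hne
      exact hdst V C g f hg Der hD n a1 b1 p q (toD p hp) (toD q hq) hne
    · intro p q hp hq hne
      exact hfst V C g f Der hD n a0 b0 p q (toF p hp) (toF q hq) hne

end

theorem t_CMP (hc : S_CODES) (hdst : S_DST) (hfst : S_FST) : S_CMP := by
  intro V C g f hV hg hf Der hD n p q hp hq hne
  obtain ⟨a0, a1, b0, b1⟩ := all hc hdst hfst hV hg hf Der hD n
  exact hdst V C g f hg Der hD n a1 b1 p q hp hq hne

end Pool.Agent.T2h30.IP.CMP
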