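import Pool.Agent.T2h30.IP.Stm

set_option autoImplicit false

namespace Pool.Agent.T2h30.IP.CODES

open Pool.Agent.Q223.IS Pool.Agent.Q32.DP Pool.Agent.T2h30.IP

theorem two : Nonempty (PG c2 ≃* Z2) := by
  obtain ⟨F, hF⟩ := PG_lift c2 (M := Z2)
    (fun i => if i = 0 then Multiplicative.ofAdd 1 else 1)
    (fun i (hi : 1 ≤ i) => if_neg (by omega)) (fun w hw => by
      have hw' : w = [(0, true), (0, true)] := by simpa [c2] using hw
      subst hw'
      decide)
  have hx : gen c2 0 * gen c2 0 = 1 := by
    have h1 := PG_rel (a := c2) (w := [(0, true), (0, true)]) (by simp [c2])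
    rw [ev_cons, ev_true] at h1
    exact h1
  let f : ℤ →+ Additive (PG c2) := zmultiplesHom (Additive (PG c2)) (Additive.ofMul (gen c2 0))
  have hf : f 2 = 0 := by
    show (2 : ℤ) • (Additive.ofMul (gen c2 0)) = 0
    rw [two_zsmul]
    exact congrArg Additive.ofMul hx
  let g : ZMod 2 →+ Additive (PG c2) := ZMod.lift 2 ⟨f, hf⟩
  let G : Z2 →* PG c2 :=
    { toFun := fun x => Additive.toMul (g (Multiplicative.toAdd x))
      map_one' := by
        show Additive.toMul (g 0) = 1
        rw [map_zero]
        rfl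
      map_mul' := fun x y => by
        show Additive.toMul (g (Multiplicative.toAdd x + Multiplicative.toAdd y)) = _
        rw [map_add]
        rfl }
  have hG : G (Multiplicative.ofAdd 1) = gen c2 0 := by
    have h1 : g ((1 : ℤ) : ZMod 2) = f 1 := ZMod.lift_coe 2 ⟨f, hf⟩ 1
    rw [Int.cast_one] at h1
    show Additive.toMul (g 1) = _
    rw [h1]
    show Additive.toMul ((1 : ℤ) • (Additive.ofMul (gen c2 0))) = _
    rw [one_smul]
    rfl
  refine ⟨MonoidHom.toMulEquiv F G ?_ ?_⟩
  · apply PG_ext
    intro i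
    rw [MonoidHom.comp_apply, hF]
    by_cases hi : i = 0
    · rw [if_pos hi, hG, hi]
      rfl
    · rw [if_neg hi, map_one]
      exact (gen_big c2 (Nat.one_le_iff_ne_zero.2 hi)).symm
  · refine MonoidHom.ext fun x => ?_
    have h2 : x = 1 ∨ x = Multiplicative.ofAdd 1 := by
      revert x
      decide
    rcases h2 with rfl | rfl
    · simp
    · rw [MonoidHom.comp_apply, hG, hF, if_pos rfl]
      rfl

theorem dih : Nonempty (PG dc ≃* Dih) := by
  obtain ⟨e⟩ := FPROD.iso c2 c2
  obtain ⟨f⟩ := two
  exact ⟨e.trans (MulEquiv.coprodCongr f f)⟩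

theorem t_CODES : S_CODES := by
  refine ⟨REDD.triv, REDD.cyc, two, dih, ⟨⟨Multiplicative.ofAdd 1, by decide⟩, ?_⟩, ?_⟩
  · rintro A B _ _ ⟨e⟩
    by_contra hcon
    rw [not_or] at hcon
    obtain ⟨h1, h2⟩ := hcon
    push Not at h1 h2
    obtain ⟨a, ha⟩ := h1
    obtain ⟨b, hb⟩ := h2
    have key : ∀ x y : Z2, x ≠ 1 → y ≠ 1 → x = y := by decide
    have h3 : e.symm (Monoid.Coprod.inl a) = e.symm (Monoid.Coprod.inr b) := by
      apply key
      · intro h
        rw [map_eq_one_iff e.symm e.symm.injective] at h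
        have := congrArg (Monoid.Coprod.fst : Monoid.Coprod A B →* A) h
        rw [Monoid.Coprod.fst_apply_inl, map_one] at this
        exact ha this
      · intro h
        rw [map_eq_one_iff e.symm e.symm.injective] at h
        have := congrArg (Monoid.Coprod.snd : Monoid.Coprod A B →* B) h
        rw [Monoid.Coprod.snd_apply_inr, map_one] at this
        exact hb this
    have h4 := congrArg (Monoid.Coprod.fst : Monoid.Coprod A B →* A) (e.symm.injective h3)
    rw [Monoid.Coprod.fst_apply_inl, Monoid.Coprod.fst_apply_inr] at h4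
    exact ha h4
  · rintro ⟨e⟩
    haveI : Finite Z2 := inferInstance
    haveI : Finite (Multiplicative ℤ) := Finite.of_equiv _ e.toEquiv
    exact not_finite (Multiplicative ℤ)

end Pool.Agent.T2h30.IP.CODES
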