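import Pool.Agent.T2h30.IP.Lev

set_option autoImplicit false

/-!
# DTOF (helper25): from direct to free normal forms
-/

namespace Pool.Agent.T2h30.IP

open Pool.Agent.Q223.IS Pool.Agent.Q32.DP Monoid

theorem t_DTOF (hc : S_CODES) : S_DTOF := by
  classical
  intro V C hV n p h
  obtain ⟨v, L, hv, hL, ⟨e⟩⟩ := h
  by_cases h2 : 2 ≤ L.length ∨ (1 ≤ L.length ∧ ∃ x : PG v, x ≠ 1)
  · have hp : DD V C (n + 1) p := Or.inr (Or.inr ⟨v, L, hv, hL, h2, ⟨e⟩⟩)
    exact ⟨n + 1, 0, [p], NF.mem_one hp, ⟨(NF.f1 p).symm⟩⟩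
  · rw [not_or, not_and_or] at h2
    rcases L with _ | ⟨k, _ | ⟨k', L⟩⟩
    · have e' : PG p ≃* PG v := e.trans (NF.prodTriv NF.pl0)
      have hp : V p := LEV.isoV hV hc hv e'
      by_cases c1 : ∀ x : PG p, x = 1
      · exact ⟨0, 0, [], by simp, ⟨NF.trivTriv c1 NF.fl0⟩⟩
      · by_cases c2' : InfCyc (PG p)
        · obtain ⟨f⟩ := NF.fz
          obtain ⟨g⟩ := c2'
          exact ⟨0, 1, [], by simp, ⟨g.trans f.symm⟩⟩
        · by_cases c3 : Nonempty (PG p ≃* Dih)
          · obtain ⟨g⟩ := c3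
            obtain ⟨z⟩ := hc.2.2.1
            obtain ⟨f⟩ := LEV.two_dih z z
            have hm : DD V C 0 c2 := Or.inr (LEV.c2_NV hV hc)
            refine ⟨0, 0, [c2, c2], ?_, ⟨g.trans f.symm⟩⟩
            intro k hk
            simp only [List.mem_cons, List.not_mem_nil, or_false, or_self] at hk
            rw [hk]
            exact hm
          · push Not at c1
            have hm : DD V C 0 p := Or.inr ⟨hp, c1, c2', c3⟩
            exact ⟨0, 0, [p], NF.mem_one hm, ⟨(NF.f1 p).symm⟩⟩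
    · have htr : ∀ x : PG v, x = 1 := by
        rcases h2.2 with h | h
        · simp at h
        · push Not at h
          exact h
      have hk : FF V C n k := hL k List.mem_cons_self
      have e' : PG p ≃* PG k := e.trans ((NF.trivProd htr).trans (LEV.d1 k))
      rcases n with _ | n
      · have hk0 : DD V C 0 k := Or.inl hk
        exact ⟨0, 0, [k], NF.mem_one hk0, ⟨e'.trans (NF.f1 k).symm⟩⟩
      · rcases hk with hk | ⟨s, L', hL', -, -, ⟨f⟩⟩
        · have hk0 : DD V C 0 k := Or.inl hk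
          exact ⟨0, 0, [k], NF.mem_one hk0, ⟨e'.trans (NF.f1 k).symm⟩⟩
        · exact ⟨n, s, L', hL', ⟨e'.trans f⟩⟩
    · exfalso
      apply h2.1
      simp only [List.length_cons]
      omega

end Pool.Agent.T2h30.IP
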