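import Pool.Agent.T2h30.IP.Stm

set_option autoImplicit false

/-! Part EXC of project IP (helper10): the exchange property. -/

namespace Pool.Agent.T2h30.IP.EXC

open Pool.Agent.Q223.IS Pool.Agent.Q32.DP Pool.Agent.H599R3.RH

variable {K M P Q : Type} [Group K] [Group M] [Group P] [Group Q]

/-- The first component on `K`. -/
def pp (e : K × M ≃* P × Q) : K →* P :=
  (MonoidHom.fst P Q).comp (e.toMonoidHom.comp (MonoidHom.inl K M))

/-- The component in `K` of the elements of `P`. -/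
def gg (e : K × M ≃* P × Q) : P →* K :=
  (MonoidHom.fst K M).comp (e.symm.toMonoidHom.comp (MonoidHom.inl P Q))

/-- The first endomorphism. -/
def aa (e : K × M ≃* P × Q) : K →* K := (gg e).comp (pp e)

theorem pp_apply (e : K × M ≃* P × Q) (x : K) : pp e x = (e (x, 1)).1 := rfl

theorem gg_apply (e : K × M ≃* P × Q) (y : P) : gg e y = (e.symm (y, 1)).1 := rfl

theorem aa_apply (e : K × M ≃* P × Q) (x : K) : aa e x = gg e (pp e x) := rfl

theorem pp_conj (e : K × M ≃* P × Q) (y : P) (x : K) : ∃ z : K, y * pp e x * y⁻¹ = pp e z := by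
  refine ⟨(e.symm (y, 1)).1 * x * ((e.symm (y, 1)).1)⁻¹, ?_⟩
  have h1 : (((e.symm (y, 1)).1 * x * ((e.symm (y, 1)).1)⁻¹, 1) : K × M) =
      e.symm (y, 1) * (x, 1) * (e.symm (y, 1))⁻¹ := by
    ext <;> simp
  rw [pp_apply e ((e.symm (y, 1)).1 * x * ((e.symm (y, 1)).1)⁻¹), h1]
  simp [pp_apply]

theorem comm (e : K × M ≃* P × Q) (hinj : Function.Injective (aa e))
    (x : K) (b : P) (hb : gg e b = 1) : pp e x * b = b * pp e x := by
  obtain ⟨z, hz⟩ := pp_conj e b x⁻¹
  have h2 : pp e x * b * (pp e x)⁻¹ * b⁻¹ = pp e (x * z) := by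
    rw [map_mul, ← hz, map_inv]
    group
  have h3 : aa e (x * z) = 1 := by
    rw [aa_apply, ← h2]
    simp [hb]
  have h4 : x * z = 1 := by
    apply hinj
    rw [h3, map_one]
  rw [h4, map_one] at h2
  rw [mul_inv_eq_one] at h2
  exact mul_inv_eq_iff_eq_mul.mp h2

/-- The case in which the composition is bijective. -/
theorem side (e : K × M ≃* P × Q) (hb : Function.Bijective (aa e)) :
    ∃ (B : Type) (_ : Group B), Nonempty (P ≃* K × B) ∧ Nonempty (M ≃* B × Q) := by
  refine ⟨(gg e).ker, inferInstance, ⟨?_⟩, ⟨?_⟩⟩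
  · refine (MulEquiv.ofBijective (MonoidHom.noncommCoprod (pp e) (gg e).ker.subtype
      (fun x b => comm e hb.1 x b.1 b.2)) ⟨?_, ?_⟩).symm
    · rw [injective_iff_map_eq_one]
      rintro ⟨x, b⟩ h
      replace h : pp e x * (b : P) = 1 := h
      have h1 : aa e x = 1 := by
        have := congrArg (gg e) h
        rw [map_mul, map_one, (MonoidHom.mem_ker (f := gg e)).mp b.2, mul_one] at this
        exact this
      have h2 : x = 1 := by
        apply hb.1
        rw [h1, map_one]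
      subst h2
      rw [map_one, one_mul] at h
      ext
      · rfl
      · exact h
    · intro y
      obtain ⟨x, hx⟩ := hb.2 (gg e y)
      rw [aa_apply] at hx
      refine ⟨(x, ⟨(pp e x)⁻¹ * y, ?_⟩), ?_⟩
      · rw [MonoidHom.mem_ker, map_mul, map_inv, hx, inv_mul_cancel]
      · change pp e x * ((pp e x)⁻¹ * y) = y
        rw [mul_inv_cancel_left]
  · refine (MulEquiv.ofBijective ((MonoidHom.snd K M).comp (e.symm.toMonoidHom.comp
      (MonoidHom.prodMap (gg e).ker.subtype (MonoidHom.id Q)))) ⟨?_, ?_⟩).symm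
    · rw [injective_iff_map_eq_one]
      rintro ⟨b, y⟩ h
      have h0 : (e.symm ((b : P), y)).2 = 1 := h
      have h1 : ((b : P), y) = e ((e.symm ((b : P), y)).1, 1) := by
        rw [← h0, Prod.mk.eta, MulEquiv.apply_symm_apply]
      have h2 : aa e (e.symm ((b : P), y)).1 = 1 := by
        rw [aa_apply, pp_apply, ← h1]
        exact (MonoidHom.mem_ker (f := gg e)).mp b.2
      have h3 : (e.symm ((b : P), y)).1 = 1 := by
        apply hb.1
        rw [h2, map_one]
      rw [h3] at h1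
      have h4 : ((b : P), y) = 1 := by
        rw [h1]
        exact map_one e
      have h5 := congrArg Prod.fst h4
      have h6 := congrArg Prod.snd h4
      ext
      · exact h5
      · exact h6
    · intro m
      obtain ⟨x, hx⟩ := hb.2 (gg e (e (1, m)).1)
      rw [aa_apply] at hx
      refine ⟨(⟨(pp e x)⁻¹ * (e (1, m)).1, ?_⟩, (e (x⁻¹, 1)).2 * (e (1, m)).2), ?_⟩
      · rw [MonoidHom.mem_ker, map_mul, map_inv, hx, inv_mul_cancel]
      · change (e.symm ((pp e x)⁻¹ * (e (1, m)).1, (e (x⁻¹, 1)).2 * (e (1, m)).2)).2 = m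
        have h1 : (((pp e x)⁻¹ * (e (1, m)).1, (e (x⁻¹, 1)).2 * (e (1, m)).2) : P × Q) =
            e ((x⁻¹, 1) * (1, m)) := by
          rw [map_mul, ← map_inv (pp e) x, pp_apply]
          rfl
        rw [h1, MulEquiv.symm_apply_apply]
        simp

theorem normal (e : K × M ≃* P × Q) (g x : K) : aa e (g * x * g⁻¹) = g * aa e x * g⁻¹ := by
  have h1 : ((pp e (g * x * g⁻¹), 1) : P × Q) = e (g, 1) * (pp e x, 1) * (e (g, 1))⁻¹ := by
    ext
    · change (e (g * x * g⁻¹, 1)).1 = (e (g, 1)).1 * (e (x, 1)).1 * ((e (g, 1)).1)⁻¹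
      rw [← Prod.fst_inv, ← Prod.fst_mul, ← Prod.fst_mul, ← map_inv, ← map_mul, ← map_mul]
      simp
    · simp
  rw [aa_apply, gg_apply, h1]
  simp [aa_apply, gg_apply]

end Pool.Agent.T2h30.IP.EXC

namespace Pool.Agent.T2h30.IP

open Pool.Agent.Q223.IS Pool.Agent.Q32.DP Pool.Agent.H599R3.RH

theorem t_EXC (hS : S_SUM) : S_EXC := by
  intro K M P Q _ _ _ _ hF hI ⟨e⟩
  let e' : K × M ≃* Q × P := e.trans MulEquiv.prodComm
  have hc : ∀ x y : K, EXC.aa e x * EXC.aa e' y = EXC.aa e' y * EXC.aa e x := by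
    intro x y
    have h1 : EXC.aa e' y = (e.symm (1, (e (y, 1)).2)).1 := rfl
    have h2 : EXC.aa e x = (e.symm ((e (x, 1)).1, 1)).1 := rfl
    rw [h1, h2, ← Prod.fst_mul, ← Prod.fst_mul, ← map_mul, ← map_mul]
    simp
  have hm : ∀ x : K, EXC.aa e x * EXC.aa e' x = x := by
    intro x
    have h1 : EXC.aa e' x = (e.symm (1, (e (x, 1)).2)).1 := rfl
    have h2 : EXC.aa e x = (e.symm ((e (x, 1)).1, 1)).1 := rfl
    rw [h1, h2, ← Prod.fst_mul, ← map_mul]
    simp
  rcases hS K (EXC.aa e) (EXC.aa e') hF hI (EXC.normal e) (EXC.normal e') hc hm with h | h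
  · exact Or.inl (EXC.side e h)
  · obtain ⟨B, iB, ⟨f1⟩, ⟨f2⟩⟩ := EXC.side e' h
    exact Or.inr ⟨B, iB, ⟨f1⟩, ⟨f2.trans MulEquiv.prodComm⟩⟩

end Pool.Agent.T2h30.IP
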