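import Pool.Agent.T2h30.IP.Stm
import Pool.Agent.Q32.DP.COMPL

set_option autoImplicit false

/-!
# FST (helper94): free forms
-/

namespace Pool.Agent.T2h30.IP.FST

open Pool.Agent.Q223.IS Pool.Agent.Q32.DP Pool.Agent.T2h30.IP

theorem t_FST : S_FST := by
  rintro V C g f Der hD n h1 h2 p q ⟨m, L, hL, ⟨e⟩⟩ ⟨m', L', hL', ⟨e'⟩⟩ hne
  by_cases hm : m = m'
  · subst hm
    have hno : ¬ ∃ σ : Fin L.length ≃ Fin L'.length,
        ∀ i, Nonempty (PG (L.get i) ≃* PG (L'.get (σ i))) := by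
      rintro ⟨σ, hσ⟩
      obtain ⟨j⟩ := ALGF.coprodI_congr (fun i : Fin L.length => PG (L.get i))
        (fun j : Fin L'.length => PG (L'.get j)) σ hσ
      exact hne ⟨e.trans ((MulEquiv.coprodCongr j (MulEquiv.refl _)).trans e'.symm)⟩
    obtain ⟨l, hl, hlab⟩ := COMPL.labs (DD V C n) Der h2 L L' hL hL' hno
    refine hD (L.map (fun k => (0, k, k)) ++ (L'.map (fun k => (0, k, k)) ++ l)) (2, p, q) ?_ ?_
    · intro x hx
      rcases List.mem_append.1 hx with h | h
      · obtain ⟨k, hk, rfl⟩ := List.mem_map.1 h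
        exact h1 k (hL k hk)
      · rcases List.mem_append.1 h with h | h
        · obtain ⟨k, hk, rfl⟩ := List.mem_map.1 h
          exact h1 k (hL' k hk)
        · exact hl x h
    · refine Or.inr (Or.inr (Or.inr ⟨rfl, Or.inr ⟨m, L, m, L', ?_, ?_, ⟨e⟩, ⟨e'⟩, Or.inr ?_⟩⟩))
      · intro k hk
        exact List.mem_append_left _ (List.mem_map.2 ⟨k, hk, rfl⟩)
      · intro k hk
        exact List.mem_append_right _ (List.mem_append_left _ (List.mem_map.2 ⟨k, hk, rfl⟩))
      · exact hlab _ (fun x hx => List.mem_append_right _ (List.mem_append_right _ hx))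
  · refine hD (L.map (fun k => (0, k, k)) ++ L'.map (fun k => (0, k, k))) (2, p, q) ?_ ?_
    · intro x hx
      rcases List.mem_append.1 hx with h | h
      · obtain ⟨k, hk, rfl⟩ := List.mem_map.1 h
        exact h1 k (hL k hk)
      · obtain ⟨k, hk, rfl⟩ := List.mem_map.1 h
        exact h1 k (hL' k hk)
    · refine Or.inr (Or.inr (Or.inr ⟨rfl, Or.inr ⟨m, L, m', L', ?_, ?_, ⟨e⟩, ⟨e'⟩, Or.inl hm⟩⟩))
      · intro k hk
        exact List.mem_append_left _ (List.mem_map.2 ⟨k, hk, rfl⟩)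
      · intro k hk
        exact List.mem_append_right _ (List.mem_map.2 ⟨k, hk, rfl⟩)

end Pool.Agent.T2h30.IP.FST
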