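import Pool.Agent.T2h30.IP.Lev

set_option autoImplicit false

/-!
# FTOD (helper25): from free to direct normal forms
-/

namespace Pool.Agent.T2h30.IP

open Pool.Agent.Q223.IS Pool.Agent.Q32.DP Monoid

theorem t_FTOD (hc : S_CODES) : S_FTOD := by
  classical
  intro V C hV n p h
  obtain ⟨s, L, hL, ⟨e⟩⟩ := h
  have htc := LEV.tcV hV hc
  by_cases h2 : 2 ≤ s + L.length
  · by_cases h3 : 3 ≤ s + L.length ∨ 1 ≤ s ∨ ∃ k ∈ L, ¬ Nonempty (PG k ≃* Z2)
    · have hp : FF V C (n + 1) p := Or.inr ⟨s, L, hL, h2, h3, ⟨e⟩⟩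
      exact ⟨n + 1, tc, [p], htc, NF.mem_one hp,
        ⟨((NF.trivProd hc.1).trans (LEV.d1 p)).symm⟩⟩
    · rw [not_or, not_or] at h3
      obtain ⟨h4, h5, h6⟩ := h3
      have hs : s = 0 := by omega
      subst hs
      push Not at h6
      rcases L with _ | ⟨k, _ | ⟨k', _ | ⟨k'', L⟩⟩⟩
      · simp at h2
      · simp at h2
      · obtain ⟨z⟩ := h6 k (by simp)
        obtain ⟨z'⟩ := h6 k' (by simp)
        obtain ⟨f⟩ := LEV.two_dih z z'
        have hp : V p := hV.dih p ⟨e.trans f⟩
        exact ⟨0, p, [], hp, by simp, ⟨(NF.prodTriv NF.pl0).symm⟩⟩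
      · exfalso
        simp only [List.length_cons] at h4
        omega
  · rcases L with _ | ⟨k, _ | ⟨k', L⟩⟩
    · rcases s with _ | _ | s
      · exact ⟨0, tc, [], htc, by simp,
          ⟨(NF.trivTriv (fun x => e.injective ((NF.fl0 _).trans (NF.fl0 _).symm)) hc.1).trans
            (NF.prodTriv NF.pl0).symm⟩⟩
      · obtain ⟨f⟩ := NF.fz
        have hp : V p := hV.int p ⟨e.trans f⟩
        exact ⟨0, p, [], hp, by simp, ⟨(NF.prodTriv NF.pl0).symm⟩⟩
      · simp at h2
    · have hs : s = 0 := by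
        simp only [List.length_cons, List.length_nil] at h2
        omega
      subst hs
      have hk : DD V C n k := hL k List.mem_cons_self
      have e' : PG p ≃* PG k := e.trans (NF.f1 k)
      have caseC : C k → ∃ n', DForm V C n' p := by
        intro hk
        have hk0 : FF V C 0 k := hk
        exact ⟨0, tc, [k], htc, NF.mem_one hk0,
          ⟨e'.trans ((NF.trivProd hc.1).trans (LEV.d1 k)).symm⟩⟩
      have caseN : NV V k → ∃ n', DForm V C n' p := by
        intro hk
        exact ⟨0, k, [], hk.1, by simp, ⟨e'.trans (NF.prodTriv NF.pl0).symm⟩⟩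
      rcases n with _ | n
      · rcases hk with hk | hk
        · exact caseC hk
        · exact caseN hk
      · rcases hk with hk | hk | ⟨v, L', hv, hL', -, ⟨f⟩⟩
        · exact caseC hk
        · exact caseN hk
        · exact ⟨n, v, L', hv, hL', ⟨e'.trans f⟩⟩
    · exfalso
      simp only [List.length_cons] at h2
      omega

end Pool.Agent.T2h30.IP
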