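import Pool.Agent.T2h30.IP.Stm

set_option autoImplicit false

/-! Part KR1 of project IP (helper10): cancelling one indecomposable factor. -/

namespace Pool.Agent.T2h30.IP.KR1

open Pool.Agent.Q223.IS Pool.Agent.Q32.DP Pool.Agent.H599R3.RH

/-- Equal indices give isomorphic members. -/
def cst {ι : Type} (L : ι → Type) [∀ i, Group (L i)] {a b : ι} (h : a = b) : L a ≃* L b :=
  h ▸ MulEquiv.refl (L a)

/-- The first factor of a product. -/
def spl {n : ℕ} (L : Fin (n + 1) → Type) [∀ j, Group (L j)] :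
    (∀ j, L j) ≃* L 0 × (∀ i : Fin n, L i.succ) where
  toFun f := (f 0, fun i => f i.succ)
  invFun x := Fin.cons x.1 x.2
  left_inv f := by
    funext j
    refine Fin.cases ?_ (fun i => ?_) j
    · rfl
    · rfl
  right_inv x := by
    apply Prod.ext
    · rfl
    · funext i
      rfl
  map_mul' f g := rfl

/-- A product with a trivial group. -/
def triv1 (A B : Type) [Group A] [Group B] (h : ∀ b : B, b = 1) : A × B ≃* A where
  toFun x := x.1
  invFun x := (x, 1)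
  left_inv x := Prod.ext rfl (h x.2).symm
  right_inv _ := rfl
  map_mul' _ _ := rfl

/-- A product with a trivial group. -/
def triv2 (A B : Type) [Group A] [Group B] (h : ∀ b : A, b = 1) : A × B ≃* B where
  toFun x := x.2
  invFun x := (1, x)
  left_inv x := Prod.ext (h x.1).symm rfl
  right_inv _ := rfl
  map_mul' _ _ := rfl

end Pool.Agent.T2h30.IP.KR1

namespace Pool.Agent.T2h30.IP

open Pool.Agent.Q223.IS Pool.Agent.Q32.DP Pool.Agent.H599R3.RH

theorem t_KR1 (hE : S_EXC) : S_KR1 := by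
  intro n
  induction n with
  | zero =>
    intro L _ K B _ _ hL hF hK ⟨e⟩
    rcases hE K B (L 0) (∀ i : Fin 0, L i.succ) hF hK ⟨e.symm.trans (KR1.spl L)⟩ with h | h
    · obtain ⟨B', _, ⟨f1⟩, ⟨f2⟩⟩ := h
      refine ⟨0, ?_⟩
      rcases (hL 0).2 K B' ⟨f1⟩ with h1 | h1
      · exact absurd h1 (by simpa using hK.1)
      · exact ⟨⟨f1.trans (KR1.triv1 K B' h1)⟩,
          ⟨(f2.trans (KR1.triv2 B' _ h1)).trans (MulEquiv.piCongrRight (fun i => i.elim0))⟩⟩
    · obtain ⟨B', _, ⟨f1⟩, ⟨f2⟩⟩ := h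
      exfalso
      obtain ⟨g, hg⟩ := hK.1
      apply hg
      have h1 : f1.symm (g, 1) = f1.symm 1 := Subsingleton.elim _ _
      exact congrArg Prod.fst (f1.symm.injective h1)
  | succ m ih =>
    intro L _ K B _ _ hL hF hK ⟨e⟩
    rcases hE K B (L 0) (∀ i : Fin (m + 1), L i.succ) hF hK ⟨e.symm.trans (KR1.spl L)⟩ with h | h
    · obtain ⟨B', _, ⟨f1⟩, ⟨f2⟩⟩ := h
      refine ⟨0, ?_⟩
      rcases (hL 0).2 K B' ⟨f1⟩ with h1 | h1
      · exact absurd h1 (by simpa using hK.1)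
      · exact ⟨⟨f1.trans (KR1.triv1 K B' h1)⟩,
          ⟨(f2.trans (KR1.triv2 B' _ h1)).trans
            (MulEquiv.piCongrRight (fun i => KR1.cst L (Fin.zero_succAbove i).symm))⟩⟩
    · obtain ⟨B', _, ⟨f1⟩, ⟨f2⟩⟩ := h
      obtain ⟨j, ⟨g1⟩, ⟨g2⟩⟩ := ih (fun i => L i.succ) K B' (fun i => hL i.succ) hF hK ⟨f1⟩
      refine ⟨j.succ, ⟨g1⟩, ⟨(f2.trans ((MulEquiv.refl (L 0)).prodCongr g2)).trans
        (MulEquiv.trans ?_ (KR1.spl (fun i : Fin (m + 1) => L (j.succ.succAbove i))).symm)⟩⟩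
      exact (KR1.cst L (Fin.succ_succAbove_zero j).symm).prodCongr
        (MulEquiv.piCongrRight (fun i => KR1.cst L (Fin.succ_succAbove_succ j i).symm))

end Pool.Agent.T2h30.IP
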