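import Pool.Agent.T2h30.IP.T_KR1

set_option autoImplicit false

/-! Part KRS of project IP (helper10): uniqueness of direct decompositions. -/

namespace Pool.Agent.T2h30.IP

open Pool.Agent.Q223.IS Pool.Agent.Q32.DP Pool.Agent.H599R3.RH

theorem t_KRS (hE : S_EXC) (h1 : S_KR1) : S_KRS := by
  intro V V' _ _ m
  induction m with
  | zero =>
    intro n K L _ _ _ hL ⟨e⟩
    cases n with
    | zero =>
      exact ⟨⟨((KR1.triv1 V (∀ i : Fin 0, K i) (fun b => Subsingleton.elim _ _)).symm.trans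
        e).trans (KR1.triv1 V' (∀ i : Fin 0, L i) (fun b => Subsingleton.elim _ _))⟩,
        Equiv.refl _, fun i => i.elim0⟩
    | succ n =>
      exfalso
      apply (hL 0).2.2
      refine ⟨(∀ i : Fin n, L i.succ) × V', inferInstance, ⟨?_⟩⟩
      exact (((KR1.triv1 V (∀ i : Fin 0, K i) (fun b => Subsingleton.elim _ _)).symm.trans
        e).trans MulEquiv.prodComm).trans (((KR1.spl L).prodCongr (MulEquiv.refl V')).trans
          MulEquiv.prodAssoc)
  | succ m ih =>
    intro n K L _ _ hK hL ⟨e⟩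
    have e1 : K 0 × (V × (∀ i : Fin m, K i.succ)) ≃* V' × (∀ j, L j) :=
      ((MulEquiv.prodAssoc.symm.trans (MulEquiv.prodComm.prodCongr (MulEquiv.refl _))).trans
        (MulEquiv.prodAssoc.trans ((MulEquiv.refl V).prodCongr (KR1.spl K).symm))).trans e
    rcases hE (K 0) _ V' _ (hK 0).1 (hK 0).2.1 ⟨e1⟩ with h | h
    · obtain ⟨B, iB, h, -⟩ := h
      exact absurd ⟨B, iB, h⟩ (hK 0).2.2
    · obtain ⟨B, iB, ⟨f1⟩, ⟨f2⟩⟩ := h
      cases n with
      | zero =>
        exfalso
        obtain ⟨g, hg⟩ := (hK 0).2.1.1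
        apply hg
        have h1 : f1.symm (g, 1) = f1.symm 1 := Subsingleton.elim _ _
        exact congrArg Prod.fst (f1.symm.injective h1)
      | succ n =>
        obtain ⟨j, ⟨g1⟩, ⟨g2⟩⟩ := h1 n L (K 0) B (fun j => (hL j).2.1) (hK 0).1 (hK 0).2.1 ⟨f1⟩
        obtain ⟨hV, σ, hσ⟩ := ih n (fun i => K i.succ) (fun i => L (j.succAbove i))
          (fun i => hK i.succ) (fun i => hL (j.succAbove i))
          ⟨f2.trans ((MulEquiv.refl V').prodCongr g2)⟩
        refine ⟨hV, (finSuccEquiv m).trans ((Equiv.optionCongr σ).trans (finSuccEquiv' j).symm),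
          fun i => ?_⟩
        refine Fin.cases ?_ (fun i => ?_) i
        · simp only [Equiv.trans_apply]
          exact ⟨g1.symm⟩
        · simp only [Equiv.trans_apply]
          exact hσ i

end Pool.Agent.T2h30.IP
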