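import Pool.Agent.T2h30.IP.Stm
import Pool.Agent.Q32.DP.KSF

set_option autoImplicit false

/-!
# KSFG (helper5): uniqueness of free decompositions, from the theorem of Kurosh without
torsion-freeness (adapted from `Pool.Agent.Q32.DP.KSF`)
-/

namespace Pool.Agent.T2h30.IP

namespace KSFG

open Monoid Pool.Agent.Q32.DP Pool.Agent.H599R3.RH
open Pool.Agent.Q32.DP.KSF (fwd tl bwd bwd_fwd inj_of GG kap ret ret_kap ret_kap_ne kap_inj key homs)

/-- nontrivial, freely indecomposable, not infinite cyclic -/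
def Good (A : Type) [Group A] : Prop := ¬ Splits A ∧ ¬ InfCyc A ∧ ∃ a : A, a ≠ 1

/-- the theorem of Kurosh with the homomorphism to the factor -/
theorem kur (hKUR : S_KUR) {A C D : Type} [Group A] [Group C] [Group D] (hA : Good A)
    (f : A →* Coprod C D) (hf : Function.Injective f) :
    (∃ (g : Coprod C D) (u : A →* C), ∀ x, f x = g * Coprod.inl (u x) * g⁻¹) ∨
    (∃ (g : Coprod C D) (u : A →* D), ∀ x, f x = g * Coprod.inr (u x) * g⁻¹) := by
  rcases hKUR A C D f hf hA.1 hA.2.1 with ⟨g, hg⟩ | ⟨g, hg⟩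
  · left
    refine ⟨g, ⟨⟨fun x => Coprod.fst (g⁻¹ * f x * g), by simp⟩, fun x y => ?_⟩, fun x => ?_⟩
    · change Coprod.fst (g⁻¹ * f (x * y) * g) =
        Coprod.fst (g⁻¹ * f x * g) * Coprod.fst (g⁻¹ * f y * g)
      rw [← map_mul, map_mul f]
      congr 1
      group
    · obtain ⟨c, hc⟩ := hg x
      have h1 : Coprod.fst (g⁻¹ * f x * g) = c := by
        rw [hc, show g⁻¹ * (g * Coprod.inl c * g⁻¹) * g = Coprod.inl c by group,
          Coprod.fst_apply_inl]
      change f x = g * Coprod.inl (Coprod.fst (g⁻¹ * f x * g)) * g⁻¹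
      rw [h1]
      exact hc
  · right
    refine ⟨g, ⟨⟨fun x => Coprod.snd (g⁻¹ * f x * g), by simp⟩, fun x y => ?_⟩, fun x => ?_⟩
    · change Coprod.snd (g⁻¹ * f (x * y) * g) =
        Coprod.snd (g⁻¹ * f x * g) * Coprod.snd (g⁻¹ * f y * g)
      rw [← map_mul, map_mul f]
      congr 1
      group
    · obtain ⟨c, hc⟩ := hg x
      have h1 : Coprod.snd (g⁻¹ * f x * g) = c := by
        rw [hc, show g⁻¹ * (g * Coprod.inr c * g⁻¹) * g = Coprod.inr c by group,
          Coprod.snd_apply_inr]
      change f x = g * Coprod.inr (Coprod.snd (g⁻¹ * f x * g)) * g⁻¹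
      rw [h1]
      exact hc

/-- the location of good subgroups in free products of finite families -/
theorem locI (hKUR : S_KUR) : ∀ (n : ℕ) (K : Fin n → Type) [∀ i, Group (K i)] (A : Type) [Group A],
    Good A → ∀ f : A →* CoprodI K, Function.Injective f →
    ∃ (i : Fin n) (g : CoprodI K) (u : A →* K i), ∀ x, f x = g * CoprodI.of (u x) * g⁻¹ := by
  intro n
  induction n with
  | zero =>
    intro K _ A _ hA f hf
    exfalso
    obtain ⟨a, ha⟩ := hA.2.2
    apply ha
    apply hf
    have h1 : ∀ z : CoprodI K, z = 1 := by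
      intro z
      induction z using CoprodI.induction_on with
      | one => rfl
      | of i x => exact i.elim0
      | mul x y hx hy => rw [hx, hy, mul_one]
    rw [h1 (f a), h1 (f 1)]
  | succ n ih =>
    intro K _ A _ hA f hf
    have hfi : Function.Injective (fwd K) := fun x y hxy => by
      rw [← bwd_fwd K x, hxy, bwd_fwd]
    have hcf : Function.Injective ((fwd K).comp f) := fun x y hxy => hf (hfi hxy)
    rcases kur hKUR hA ((fwd K).comp f) hcf with ⟨g, u, hu⟩ | ⟨g, u, hu⟩
    · refine ⟨0, bwd K g, u, fun x => ?_⟩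
      have h1 : f x = bwd K (fwd K (f x)) := (bwd_fwd K _).symm
      have h2 : fwd K (f x) = g * Coprod.inl (u x) * g⁻¹ := hu x
      rw [h1, h2, map_mul, map_mul, map_inv]
      congr 2
    · have hui : Function.Injective u := inj_of _ hcf g Coprod.inr u hu
      obtain ⟨i, g', u', hu'⟩ := ih (fun i : Fin n => K i.succ) A hA u hui
      refine ⟨i.succ, bwd K g * tl K g', u', fun x => ?_⟩
      have h1 : f x = bwd K (fwd K (f x)) := (bwd_fwd K _).symm
      have h2 : fwd K (f x) = g * Coprod.inr (u x) * g⁻¹ := hu x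
      have h3 : bwd K (Coprod.inr (u x)) = tl K (u x) := by
        unfold bwd
        exact Coprod.lift_apply_inr _ _ _
      have h4 : tl K (CoprodI.of (M := fun i : Fin n => K i.succ) (i := i) (u' x)) =
          CoprodI.of (M := K) (i := i.succ) (u' x) := by
        unfold tl
        exact CoprodI.lift_of _ _
      rw [h1, h2, map_mul, map_mul, map_inv, h3, hu' x, map_mul, map_mul, map_inv, h4]
      group

/-- good groups do not embed in free groups of finite rank -/
theorem nofree (hKUR : S_KUR) (s : ℕ) (A : Type) [Group A] (hA : Good A)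
    (f : A →* FreeGroup (Fin s)) (hf : Function.Injective f) : False := by
  obtain ⟨i, g, u, hu⟩ := locI hKUR s (fun _ => FreeGroup Unit) A hA
    ((freeGroupEquivCoprodI : FreeGroup (Fin s) ≃* _).toMonoidHom.comp f)
    ((freeGroupEquivCoprodI : FreeGroup (Fin s) ≃* _).injective.comp hf)
  have hui : Function.Injective u := inj_of _
    ((freeGroupEquivCoprodI : FreeGroup (Fin s) ≃* _).injective.comp hf) g _ u hu
  have hc : IsCyclic (FreeGroup Unit) := by
    refine ⟨⟨FreeGroup.of (), fun x => ?_⟩⟩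
    change ∃ n : ℤ, (FreeGroup.of () : FreeGroup Unit) ^ n = x
    induction x using FreeGroup.induction_on with
    | C1 => exact ⟨0, by simp⟩
    | of x => exact ⟨1, by simp⟩
    | inv_of x _ => exact ⟨-1, by simp⟩
    | mul x y hx hy =>
      obtain ⟨a, ha⟩ := hx
      obtain ⟨b, hb⟩ := hy
      exact ⟨a + b, by rw [zpow_add, ha, hb]⟩
  have hcA : IsCyclic A := isCyclic_of_injective u hui
  obtain ⟨a, ha⟩ := hA.2.2
  have : Infinite A := by
    by_contra hfin
    rw [not_infinite_iff_finite] at hfin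
    have := hfin
    obtain ⟨k, hk, hk1⟩ := (isOfFinOrder_iff_pow_eq_one (x := a)).1 (isOfFinOrder_of_finite a)
    have h1 : (u a) ^ k = 1 ^ k := by rw [← map_pow, hk1, map_one, one_pow]
    have h2 : u a = 1 := pow_left_injective (M := FreeGroup Unit) hk.ne' h1
    exact ha (hui (h2.trans (map_one u).symm))
  have := hcA
  exact hA.2.1 ⟨(intCyclicMulEquiv (G := A)).symm⟩

/-- location of good subgroups of the big group -/
theorem loc (hKUR : S_KUR) (s : ℕ) {m : ℕ} (K : Fin m → Type) [∀ i, Group (K i)] (A : Type)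
    [Group A] (hA : Good A) (f : A →* GG s K) (hf : Function.Injective f) :
    ∃ (i : Fin m) (g : GG s K) (u : A →* K i), ∀ x, f x = g * kap s K i (u x) * g⁻¹ := by
  rcases kur hKUR hA f hf with ⟨g, u, hu⟩ | ⟨g, u, hu⟩
  · have hui : Function.Injective u := inj_of f hf g Coprod.inl u hu
    obtain ⟨i, g', u', hu'⟩ := locI hKUR m K A hA u hui
    refine ⟨i, g * Coprod.inl g', u', fun x => ?_⟩
    rw [hu x, hu' x, map_mul, map_mul, map_inv]
    unfold kap
    rw [MonoidHom.comp_apply]
    group
  · exact (nofree hKUR s A hA u (inj_of f hf g Coprod.inr u hu)).elim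

theorem good_of {A : Type} [Group A] (h : FreelyIndec A ∧ ¬ InfCyc A) : Good A := by
  refine ⟨?_, h.2, h.1.1⟩
  rintro ⟨B, C, iB, iC, hB, hC, hi⟩
  rcases h.1.2 B C hi with h1 | h1
  · obtain ⟨b, hb⟩ := exists_ne (1 : B)
    exact hb (h1 b)
  · obtain ⟨b, hb⟩ := exists_ne (1 : C)
    exact hb (h1 b)

end KSFG

open Monoid Pool.Agent.Q32.DP Pool.Agent.H599R3.RH
open Pool.Agent.Q32.DP.KSF (fwd tl bwd bwd_fwd inj_of GG kap ret ret_kap ret_kap_ne kap_inj key homs)
open KSFG

/-- KSFG -/
theorem t_KSFG (hKUR : S_KUR) : S_KSFG := by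
  intro s s' m n K L _ _ hK hL he
  obtain ⟨e⟩ := he
  have gK : ∀ i, Good (K i) := fun i => good_of (hK i)
  have gL : ∀ j, Good (L j) := fun j => good_of (hL j)
  have h1 : ∀ i, ∃ (j : Fin n) (g : GG s' L) (u : K i →* L j),
      ∀ x, e (kap s K i x) = g * kap s' L j (u x) * g⁻¹ := fun i =>
    loc hKUR s' L (K i) (gK i) (e.toMonoidHom.comp (kap s K i))
      (e.injective.comp (kap_inj s K i))
  have h2 : ∀ j, ∃ (i : Fin m) (g : GG s K) (u : L j →* K i),
      ∀ x, e.symm (kap s' L j x) = g * kap s K i (u x) * g⁻¹ := fun j =>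
    loc hKUR s K (L j) (gL j) (e.symm.toMonoidHom.comp (kap s' L j))
      (e.symm.injective.comp (kap_inj s' L j))
  choose σ g u hu using h1
  choose τ h v hv using h2
  have c1 : ∀ i, τ (σ i) = i ∧ Function.Surjective ((v (σ i)).comp (u i)) := by
    intro i
    refine key s K i (τ (σ i)) (e.symm (g i) * h (σ i)) ((v (σ i)).comp (u i)) (fun x => ?_)
      (gK i).2.2
    have h3 : kap s K i x = e.symm (e (kap s K i x)) := (e.symm_apply_apply _).symm
    rw [h3, hu, map_mul, map_mul, map_inv, hv, MonoidHom.comp_apply]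
    group
  have c2 : ∀ j, σ (τ j) = j ∧ Function.Surjective ((u (τ j)).comp (v j)) := by
    intro j
    refine key s' L j (σ (τ j)) (e (h j) * g (τ j)) ((u (τ j)).comp (v j)) (fun x => ?_)
      (gL j).2.2
    have h3 : kap s' L j x = e (e.symm (kap s' L j x)) := (e.apply_symm_apply _).symm
    rw [h3, hv, map_mul, map_mul, map_inv, hu, MonoidHom.comp_apply]
    group
  have ui : ∀ i, Function.Injective (u i) := fun i =>
    inj_of (e.toMonoidHom.comp (kap s K i)) (e.injective.comp (kap_inj s K i)) (g i)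
      (kap s' L (σ i)) (u i) (hu i)
  have vi : ∀ j, Function.Injective (v j) := fun j =>
    inj_of (e.symm.toMonoidHom.comp (kap s' L j)) (e.symm.injective.comp (kap_inj s' L j)) (h j)
      (kap s K (τ j)) (v j) (hv j)
  refine ⟨?_, ⟨⟨σ, τ, fun i => (c1 i).1, fun j => (c2 j).1⟩, fun i => ?_⟩⟩
  · -- the ranks
    let M := Multiplicative (ZMod 2)
    have E : {φ : GG s K →* M // ∀ i x, φ (kap s K i x) = 1} ≃
        {φ : GG s' L →* M // ∀ j x, φ (kap s' L j x) = 1} :=
      { toFun := fun φ => ⟨φ.1.comp e.symm.toMonoidHom, fun j x => by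
          change φ.1 (e.symm (kap s' L j x)) = 1
          rw [hv, map_mul, map_mul, φ.2, mul_one, ← map_mul, mul_inv_cancel, map_one]⟩
        invFun := fun φ => ⟨φ.1.comp e.toMonoidHom, fun j x => by
          change φ.1 (e (kap s K j x)) = 1
          rw [hu, map_mul, map_mul, φ.2, mul_one, ← map_mul, mul_inv_cancel, map_one]⟩
        left_inv := fun φ => by
          apply Subtype.ext
          refine MonoidHom.ext fun x => ?_
          change φ.1 (e.symm (e x)) = φ.1 x
          rw [e.symm_apply_apply]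
        right_inv := fun φ => by
          apply Subtype.ext
          refine MonoidHom.ext fun x => ?_
          change φ.1 (e (e.symm x)) = φ.1 x
          rw [e.apply_symm_apply] }
    have E2 : (Fin s → M) ≃ (Fin s' → M) := (homs s K M).symm.trans (E.trans (homs s' L M))
    have h3 := Fintype.card_congr E2
    have h4 : Fintype.card M = 2 := ZMod.card 2
    rw [Fintype.card_fun, Fintype.card_fun, Fintype.card_fin, Fintype.card_fin, h4] at h3
    exact Nat.pow_right_injective le_rfl h3
  · refine ⟨MulEquiv.ofBijective (u i) ⟨ui i, fun y => ?_⟩⟩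
    obtain ⟨x, hx⟩ := (c1 i).2 (v (σ i) y)
    exact ⟨x, vi (σ i) hx⟩

end Pool.Agent.T2h30.IP
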