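import Pool.Agent.T4h64.DP.Inf
import Pool.Agent.T4h64.DP.Kur

set_option autoImplicit false

namespace Pool.Agent.T2h30.IP.KUR

theorem t_KUR (_ : S_BSA) (_ : S_BSH) (_ : S_LIN) : S_KUR := by
  intro A C D _ _ _ f hf hs hc
  by_cases hnt : ∃ a : A, a ≠ 1
  · exact Pool.Agent.T4h64.DP.kurosh' f hf hnt hs (fun h => hc ((Pool.Agent.T4h64.DP.Inf.infCyc_iff A).2 h))
  · push Not at hnt
    left
    refine ⟨1, fun x => ⟨1, ?_⟩⟩
    rw [hnt x]
    simp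

end Pool.Agent.T2h30.IP.KUR
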