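import Pool.Agent.T2h30.IP.Stm
import Pool.Agent.T4h64.DP.Bs

set_option autoImplicit false

namespace Pool.Agent.T2h30.IP.LIN

open Pool.Agent.H599R3.RH

theorem t_LIN : S_LIN := by
  intro G V E _ _ _ T e he τ u h h1 hτ hhu
  have hu : ∀ g ∈ Subgroup.zpowers h, Sim T e (g • u) u := fun g hg =>
    (Subgroup.zpowers_le.2 (mem_fixCl.2 hhu) : Subgroup.zpowers h ≤ fixCl T e u) hg
  by_contra hcon
  unfold Sim at hcon
  push Not at hcon
  obtain ⟨k, hk⟩ := hcon
  have hk' : ¬ (side T (k • e) τ ↔ side T (k • e) u) := by tauto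
  have hpow : ∀ n : ℕ, (h ^ n)⁻¹ • τ = τ := by
    intro n
    have h2 : ∀ n : ℕ, h ^ n • τ = τ := by
      intro n
      induction n with
      | zero => simp
      | succ n ih => rw [pow_succ, mul_smul, hτ, ih]
    rw [inv_smul_eq_iff, h2]
  have vτ : ∀ n : ℕ, side T ((h ^ n * k) • e) τ ↔ side T (k • e) τ := by
    intro n
    have := side_smul T (h ^ n) (k • e) ((h ^ n)⁻¹ • τ)
    rwa [smul_inv_smul, smul_smul, hpow] at this
  have vu : ∀ n : ℕ, side T ((h ^ n * k) • e) u ↔ side T (k • e) u := by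
    intro n
    have := side_smul T (h ^ n) (k • e) ((h ^ n)⁻¹ • u)
    rw [smul_inv_smul, smul_smul] at this
    exact this.trans (hu _ (inv_mem (Subgroup.pow_mem _ (Subgroup.mem_zpowers h) n)) k)
  have hmem : ∀ n : ℕ, (h ^ n * k) • e ∈ sep T τ u := by
    intro n hn
    apply hk'
    rw [← vτ n, ← vu n]
    exact hn
  have hpe : ∀ m n : ℕ, (h ^ m * k) • e = (h ^ n * k) • e → h ^ m = h ^ n := by
    intro m n hmn
    have h3 : ((h ^ n * k)⁻¹ * (h ^ m * k)) • e = e := by
      rw [mul_smul, inv_smul_eq_iff]; exact hmn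
    have := he _ h3
    rw [inv_mul_eq_one] at this
    exact mul_right_cancel this.symm
  -- finite order
  obtain ⟨N, hN0, hN⟩ : ∃ N : ℕ, 0 < N ∧ h ^ N = 1 := by
    have hni : ¬ Function.Injective (fun n : ℕ => (h ^ n * k) • e) := fun hinj =>
      Set.infinite_of_injective_forall_mem hinj hmem (fin_sep T τ u)
    unfold Function.Injective at hni
    push Not at hni
    obtain ⟨m, n, hmn, hne⟩ := hni
    have h3 := hpe m n hmn
    rcases lt_or_gt_of_ne hne with hl | hl
    · refine ⟨n - m, by omega, ?_⟩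
      have : h ^ n = h ^ (n - m) * h ^ m := by rw [← pow_add]; congr 1; omega
      rw [← h3] at this
      exact right_eq_mul.1 this
    · refine ⟨m - n, by omega, ?_⟩
      have : h ^ m = h ^ (m - n) * h ^ n := by rw [← pow_add]; congr 1; omega
      rw [h3] at this
      exact right_eq_mul.1 this
  -- the half trees
  let S : ℕ → V → Prop := fun m v => (side T ((h ^ m * k) • e) v ↔ side T (k • e) u)
  have hS : ∀ m v, S (m + 1) v ↔ S m (h⁻¹ • v) := by
    intro m v
    have h4 : side T ((h ^ m * k) • e) (h⁻¹ • v) ↔ side T ((h ^ (m + 1) * k) • e) v := by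
      rw [side_smul', inv_inv, smul_smul, ← mul_assoc, ← pow_succ']
    show (_ ↔ _) ↔ (_ ↔ _)
    rw [h4]
  have hSN : ∀ v, S N v ↔ S 0 v := by
    intro v
    show (_ ↔ _) ↔ (_ ↔ _)
    rw [hN, pow_zero]
  have hne01 : (h ^ 0 * k) • e ≠ (h ^ 1 * k) • e := by
    intro h4
    have := hpe 0 1 h4
    rw [pow_zero, pow_one] at this
    exact h1 this.symm
  have q := quad T hne01
  have qτ := q τ
  have qu := q u
  have a0 := vτ 0
  have a1 := vτ 1
  have b0 := vu 0
  have b1 := vu 1
  have sd := side_ne T hne01.symm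
  have s10 := side0 T ((h ^ 1 * k) • e)
  have s11 := side1 T ((h ^ 1 * k) • e)
  by_cases hcase : (side T ((h ^ 0 * k) • e) (T.d0 ((h ^ 1 * k) • e)) ↔ side T (k • e) τ)
  · -- `S 0 ⊆ S 1`
    have hb' : side T ((h ^ 1 * k) • e) (T.d0 ((h ^ 0 * k) • e)) ↔ side T (k • e) u := by
      rcases qu with h4 | h4
      · exact absurd (hcase.symm.trans (h4.symm.trans b0)) hk'
      · exact h4.symm.trans b1
    have hsub : ∀ v, S 0 v → S 1 v := by
      intro v hv
      rcases q v with h4 | h4
      · exact absurd (hcase.symm.trans (h4.symm.trans hv)) hk'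
      · exact h4.trans hb'
    obtain ⟨v, hv1, hv0⟩ : ∃ v, S 1 v ∧ ¬ S 0 v := by
      by_cases hb : side T (k • e) u
      · exact ⟨T.d1 ((h ^ 1 * k) • e), ⟨fun _ => hb, fun _ => s11⟩,
          fun h0 => hk' (hcase.symm.trans (sd.symm.trans h0))⟩
      · exact ⟨T.d0 ((h ^ 1 * k) • e), iff_of_false s10 hb,
          fun h0 => hk' (hcase.symm.trans h0)⟩
    have hall : ∀ m v, S 0 v → S m v := by
      intro m
      induction m with
      | zero => exact fun v hv => hv
      | succ m ih =>
        intro v hv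
        rw [hS]
        apply ih
        rw [← hS]
        exact hsub v hv
    apply hv0
    rw [← hSN]
    obtain ⟨M, rfl⟩ : ∃ M, N = M + 1 := ⟨N - 1, by omega⟩
    rw [hS]
    apply hall
    rw [← hS]
    exact hv1
  · -- `S 1 ⊆ S 0`
    have hau : side T ((h ^ 0 * k) • e) (T.d0 ((h ^ 1 * k) • e)) ↔ side T (k • e) u := by
      clear * - hcase hk'
      tauto
    have hb' : side T ((h ^ 1 * k) • e) (T.d0 ((h ^ 0 * k) • e)) ↔ side T (k • e) τ := by
      rcases qτ with h4 | h4
      · exact absurd (h4.symm.trans a0) hcase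
      · exact h4.symm.trans a1
    have hsub : ∀ v, S 1 v → S 0 v := by
      intro v hv
      rcases q v with h4 | h4
      · exact h4.trans hau
      · exact absurd ((hb'.symm.trans h4.symm).trans hv) hk'
    obtain ⟨v, hv1, hv0⟩ : ∃ v, S 0 v ∧ ¬ S 1 v := by
      by_cases hb : side T (k • e) u
      · exact ⟨T.d0 ((h ^ 1 * k) • e), hau, fun h0 => s10 (h0.2 hb)⟩
      · exact ⟨T.d1 ((h ^ 1 * k) • e), sd.trans hau, fun h0 => hb (h0.1 s11)⟩
    have hall : ∀ m v, S m v → S 0 v := by
      intro m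
      induction m with
      | zero => exact fun v hv => hv
      | succ m ih =>
        intro v hv
        rw [hS] at hv
        apply hsub
        rw [hS]
        exact ih _ hv
    apply hv0
    rw [hS]
    rw [← hSN] at hv1
    obtain ⟨M, rfl⟩ : ∃ M, N = M + 1 := ⟨N - 1, by omega⟩
    rw [hS] at hv1
    exact hall _ _ hv1

end Pool.Agent.T2h30.IP.LIN
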