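import Pool.Agent.T2h30.IP.Stm
import Pool.Agent.Q32.DP.GEN
import Pool.Agent.Q32.DP.SEARCH

set_option autoImplicit false

namespace Pool.Agent.T2h30.IP.MAIN

open Pool.Agent.Q223.IS Pool.Agent.Q32.DP Pool.Agent.T2h30.IP Pool.Agent.Helper926

theorem t_MAIN (hNF : S_NF) (hRE01 : S_RE01) (hRE2 : S_RE2) (hRE3 : S_RE3) (hMONO : S_MONO)
    (hS01 : S_SND01) (hS23 : S_SND23) (hCMP : S_CMP) : S_MAIN := by
  rintro V C hV hC H ⟨g, hg, hg'⟩ ⟨f, hf, hf'⟩
  have hre : REPred (StepR V C g f) := by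
    obtain ⟨h0, h1⟩ := hRE01 V C g hV hC hg
    exact (RE.or h0 (RE.or h1 (RE.or (hRE2 V g hV hg) (hRE3 C f hC hf)))).of_eq fun z => Iff.rfl
  obtain ⟨Der, hDre, hDcl, hDind⟩ := GEN.t Fact (StepR V C g f) hre
    (fun l l' e h hs => hMONO V C g f l l' e h hs)
  have hsound : ∀ p q, Der (2, p, q) → ¬ Nonempty (PG p ≃* PG q) := fun p q h =>
    (hDind (Mean V C) (fun l e hl hs => by
      rcases hs with hs | hs | hs | hs
      · exact hS01 V C g H hg' l e hl (Or.inl hs)
      · exact hS01 V C g H hg' l e hl (Or.inr hs)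
      · exact hS23 V C g f H hg' hf' l e hl (Or.inl hs)
      · exact hS23 V C g f H hg' hf' l e hl (Or.inr hs)) _ h).2.2 rfl
  have hcompl := hCMP V C g f H hg' hf' Der hDcl
  have hmonoD : ∀ n, (∀ p, DD V C n p → DD V C (n + 1) p) ∧
      (∀ p, FF V C n p → FF V C (n + 1) p) := by
    intro n
    induction n with
    | zero =>
      constructor
      · rintro p (h | h)
        · exact Or.inl h
        · exact Or.inr (Or.inl h)
      · exact fun p h => Or.inl h
    | succ n ih =>
      constructor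
      · rintro p (h | h | ⟨v, L, h1, h2, h3, h4⟩)
        · exact Or.inl h
        · exact Or.inr (Or.inl h)
        · exact Or.inr (Or.inr ⟨v, L, h1, fun k hk => ih.2 k (h2 k hk), h3, h4⟩)
      · rintro p (h | ⟨m, L, h1, h2, h3, h4⟩)
        · exact Or.inl h
        · exact Or.inr ⟨m, L, fun k hk => ih.1 k (h1 k hk), h2, h3, h4⟩
  have hmonoF : ∀ n m, n ≤ m → ∀ p, FF V C n p → FF V C m p := by
    intro n m h
    induction h with
    | refl => exact fun p hp => hp
    | step _ ih => exact fun p hp => (hmonoD _).2 p (ih p hp)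
  have hDF : ∀ n m, n ≤ m → ∀ p, DForm V C n p → DForm V C m p := by
    rintro n m h p ⟨a, L, h0, h1, h2⟩
    exact ⟨a, L, h0, fun k hk => hmonoF n m h k (h1 k hk), h2⟩
  have hiff : ∀ p q, Built V C p → Built V C q →
      (Der (2, p, q) ↔ ¬ Nonempty (PG p ≃* PG q)) := by
    intro p q hp hq
    refine ⟨hsound p q, fun h => ?_⟩
    obtain ⟨n, hn⟩ := hNF V C H p hp
    obtain ⟨m, hm⟩ := hNF V C H q hq
    exact hcompl (max n m) p q (hDF n _ (le_max_left _ _) p hn) (hDF m _ (le_max_right _ _) q hm) h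
  have hN : REPred fun z : Pres × Pres => Der (2, z.1, z.2) := by
    have hc : Computable fun z : Pres × Pres => ((2, z.1, z.2) : Fact) :=
      (Primrec.pair (Primrec.const 2) (Primrec.pair Primrec.fst Primrec.snd)).to_comp
    exact Pool.Agent.Helper926.RE.comp (p := Der) hDre hc
  exact SEARCH.solvable_of hN (fun p q h => hsound p q h)
    (fun p q hp hq h => (hiff p q hp hq).2 h)

end Pool.Agent.T2h30.IP.MAIN
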