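import Pool.Agent.T2h30.IP.Stm
import Pool.Agent.Q32.DP.Struct

set_option autoImplicit false

/-!
# MEM (helper5): the members of the classes `DD`, `FF`
-/

namespace Pool.Agent.T2h30.IP

namespace MEM

open Monoid Pool.Agent.Q223.IS Pool.Agent.Q32.DP Pool.Agent.Q32.DP.Struct

theorem infcyc_iso {G H : Type} [Group G] [Group H] (e : G ≃* H) (h : InfCyc G) : InfCyc H := by
  obtain ⟨f⟩ := h
  exact ⟨e.symm.trans f⟩

theorem ninfcyc_iso {G H : Type} [Group G] [Group H] (e : G ≃* H) (h : ¬ InfCyc G) :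
    ¬ InfCyc H := fun h' => h (infcyc_iso e.symm h')

theorem finc_iso {G H : Type} [Group G] [Group H] (e : G ≃* H) (h : FinC G) : FinC H := by
  unfold FinC at h ⊢
  exact Finite.of_equiv _ (Subgroup.centerCongr e).toEquiv

theorem dirf_iso {K K' G G' : Type} [Group K] [Group K'] [Group G] [Group G'] (e : K ≃* K')
    (f : G ≃* G') (h : DirF K G) : DirF K' G' := by
  obtain ⟨B, iB, ⟨g⟩⟩ := h
  exact ⟨B, iB, ⟨f.symm.trans (g.trans (e.prodCongr (MulEquiv.refl B)))⟩⟩

theorem dirf_self {G H : Type} [Group G] [Group H] (e : G ≃* H) : DirF H G := by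
  refine ⟨Unit, inferInstance, ⟨e.trans ?_⟩⟩
  exact MulEquiv.prodUnique.symm

theorem ninfcyc_of_finc {G : Type} [Group G] (h : FinC G) : ¬ InfCyc G := by
  rintro ⟨e⟩
  have h2 : FinC (Multiplicative ℤ) := finc_iso e h
  unfold FinC at h2
  rw [CommGroup.center_eq_top] at h2
  have h3 : Finite (Multiplicative ℤ) :=
    Finite.of_equiv _ (Subgroup.topEquiv (G := Multiplicative ℤ)).toEquiv
  have h4 : Finite ℤ := Finite.of_equiv _ Multiplicative.toAdd
  exact not_finite ℤ

/-- a free product with a trivial group -/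
theorem coprod_triv {A B : Type} [Group A] [Group B] (hb : ∀ b : B, b = 1) :
    Nonempty (A ≃* Coprod A B) := by
  refine ⟨MonoidHom.toMulEquiv Coprod.inl (Coprod.lift (MonoidHom.id _) 1) ?_ ?_⟩
  · refine MonoidHom.ext fun x => ?_
    simp
  · apply Coprod.hom_ext
    · refine MonoidHom.ext fun x => ?_
      simp
    · refine MonoidHom.ext fun x => ?_
      rw [hb x]
      simp

theorem get2 (x : Pres) (j : Fin [x, x].length) : [x, x].get j = x := by
  rcases List.mem_cons.1 (List.get_mem [x, x] j) with h | h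
  · exact h
  · exact List.mem_singleton.1 h

theorem fls_two (k k' : Pres) : Nonempty (FLs 0 [k, k'] ≃* Coprod (PG k) (PG k')) := by
  obtain ⟨e0⟩ := FLs_nil 0
  have h0 : ∀ x : FLs 0 [], x = 1 := fun x => e0.injective (Subsingleton.elim _ _)
  obtain ⟨e1⟩ := coprod_triv (A := PG k') h0
  exact ⟨(consFLs 0 k [k']).trans (MulEquiv.coprodCongr (MulEquiv.refl _)
    ((consFLs 0 k' []).trans e1.symm))⟩

theorem split_FLs' (s : ℕ) (L : List Pres) (hL : ∀ k ∈ L, ∃ g : PG k, g ≠ 1)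
    (h : 2 ≤ s + L.length) : ∃ (A B : Type) (_ : Group A) (_ : Group B),
      (∃ a : A, a ≠ 1) ∧ (∃ b : B, b ≠ 1) ∧ Nonempty (FLs s L ≃* Coprod A B) := by
  rcases L with _ | ⟨k, L⟩
  · obtain ⟨s, rfl⟩ : ∃ s', s = s' + 1 := ⟨s - 1, by simp at h; omega⟩
    obtain ⟨e⟩ := FLs_nil (s + 1)
    exact ⟨FreeGroup (Fin 1), FreeGroup (Fin s), inferInstance, inferInstance,
      nontriv_free 1 le_rfl, nontriv_free s (by simp at h; omega),
      ⟨e.trans (freeSucc s)⟩⟩
  · exact ⟨PG k, FLs s L, inferInstance, inferInstance, hL k List.mem_cons_self,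
      nontriv_FLs s L (fun k hk => hL k (List.mem_cons_of_mem _ hk)) (by simp at h ⊢; omega),
      ⟨consFLs s k L⟩⟩

theorem split_DL' (v : Pres) (L : List Pres) (hL : ∀ k ∈ L, ∃ g : PG k, g ≠ 1)
    (h : 2 ≤ L.length ∨ (1 ≤ L.length ∧ ∃ x : PG v, x ≠ 1)) :
    ∃ (A B : Type) (_ : Group A) (_ : Group B),
      (∃ a : A, a ≠ 1) ∧ (∃ b : B, b ≠ 1) ∧ Nonempty (PG v × PL L ≃* A × B) := by
  rcases L with _ | ⟨k, L⟩
  · simp at h
  · refine ⟨PG k, PG v × PL L, inferInstance, inferInstance, hL k List.mem_cons_self, ?_, ?_⟩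
    · rcases h with h | ⟨-, x, hx⟩
      · rcases L with _ | ⟨k', L⟩
        · simp at h
        · obtain ⟨g, hg⟩ := nontriv_PL k' L (hL k' (by simp))
          exact ⟨(1, g), fun h => hg (congrArg Prod.snd h)⟩
      · exact ⟨(x, 1), fun h => hx (congrArg Prod.fst h)⟩
    · refine ⟨((MulEquiv.refl _).prodCongr (Red.consE k L)).trans ?_⟩
      exact (MulEquiv.prodAssoc.symm.trans (MulEquiv.prodComm.prodCongr (MulEquiv.refl _))).trans
        MulEquiv.prodAssoc

end MEM

open Monoid Pool.Agent.Q223.IS Pool.Agent.Q32.DP Pool.Agent.Q32.DP.Struct MEM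

/-- MEM -/
theorem t_MEM (hK : S_KSFG) (hP : S_PROPS) (hCo : S_CODES) : S_MEM := by
  intro V C H
  obtain ⟨-, -, ⟨ec2⟩, -, hz1, hz2⟩ := hCo
  have hCD : ∀ p, C p → PD p := fun p hp =>
    ⟨(H.base p hp).2.2.1, ninfcyc_of_finc (H.base p hp).1⟩
  have hCF : ∀ p, C p → PF V p := fun p hp =>
    ⟨(H.base p hp).1, (H.base p hp).2.1, (H.base p hp).2.2.2⟩
  have hND : ∀ p, NV V p → PD p := by
    rintro p ⟨h1, h2, h3, h4⟩
    refine ⟨⟨h2, ?_⟩, h3⟩
    rintro A B iA iB ⟨e⟩
    by_contra hcon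
    push Not at hcon
    obtain ⟨⟨a, ha⟩, ⟨b, hb⟩⟩ := hcon
    obtain ⟨⟨eA⟩, ⟨eB⟩⟩ := H.fac p h1 A B ⟨a, ha⟩ ⟨b, hb⟩ (dirf_self e)
    exact h4 ⟨e.trans (MulEquiv.coprodCongr eA eB)⟩
  intro n
  induction n with
  | zero =>
    refine ⟨fun p hp => ?_, fun p hp => ?_⟩
    · rw [DD] at hp
      rcases hp with hp | hp
      · exact hCD p hp
      · exact hND p hp
    · rw [FF] at hp
      exact hCF p hp
  | succ n ih =>
    constructor
    · intro p hp
      rw [DD] at hp
      rcases hp with hp | hp | ⟨v, L, hv, hL, hlen, ⟨e⟩⟩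
      · exact hCD p hp
      · exact hND p hp
      · obtain ⟨A, B, iA, iB, ha, hb, ⟨f⟩⟩ := split_DL' v L
          (fun k hk => (ih.2 k (hL k hk)).2.1.1) hlen
        have h1 := (hP A B ha hb).2
        have g := (e.trans f).symm
        exact ⟨findec_iso g h1.1, ninfcyc_iso g h1.2⟩
    · intro p hp
      rw [FF] at hp
      rcases hp with hp | ⟨s, L, hL, hlen, hth, ⟨e⟩⟩
      · exact hCF p hp
      · obtain ⟨A, B, iA, iB, ha, hb, ⟨f⟩⟩ := split_FLs' s L
          (fun k hk => (ih.1 k (hL k hk)).1.1) hlen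
        have h1 := (hP A B ha hb).1
        have g := (e.trans f).symm
        refine ⟨finc_iso g h1.2.1, indec_iso g h1.2.2.1, fun v hv hd => ?_⟩
        have hd' : DirF (Coprod A B) (PG v) := dirf_iso g.symm (MulEquiv.refl _) hd
        obtain ⟨⟨eA⟩, ⟨eB⟩⟩ := H.fac v hv A B ha hb hd'
        obtain ⟨e2⟩ := fls_two c2 c2
        have hiso : Nonempty (FLs s L ≃* FLs 0 [c2, c2]) :=
          ⟨(f.trans (MulEquiv.coprodCongr (eA.trans ec2.symm) (eB.trans ec2.symm))).trans e2.symm⟩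
        have hc2 : ∀ j : Fin [c2, c2].length, FreelyIndec (PG ([c2, c2].get j)) ∧
            ¬ InfCyc (PG ([c2, c2].get j)) := by
          intro j
          have hj : [c2, c2].get j = c2 := get2 c2 j
          rw [hj]
          exact ⟨findec_iso ec2.symm hz1, ninfcyc_iso ec2.symm hz2⟩
        obtain ⟨hs, σ, hσ⟩ := hK s 0 L.length [c2, c2].length (fun i => PG (L.get i))
          (fun j => PG ([c2, c2].get j)) (fun i => ih.1 _ (hL _ (List.get_mem L i))) hc2 hiso
        have hlen2 : L.length = 2 := by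
          have := Fintype.card_congr σ
          simpa using this
        rcases hth with h3 | h3 | ⟨k, hk, h3⟩
        · omega
        · omega
        · obtain ⟨i, hi⟩ := List.mem_iff_get.1 hk
          apply h3
          obtain ⟨g2⟩ := hσ i
          have hj : [c2, c2].get (σ i) = c2 := get2 c2 (σ i)
          rw [hj] at g2
          rw [← hi]
          exact ⟨g2.trans ec2⟩

end Pool.Agent.T2h30.IP
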