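import Pool.Agent.T2h30.IP.Stm
import Pool.Agent.Q32.DP.STEPRE

set_option autoImplicit false

namespace Pool.Agent.T2h30.IP.MONO

open Pool.Agent.Q223.IS Pool.Agent.Q32.DP Pool.Agent.T2h30.IP

theorem t_MONO : S_MONO := by
  intro V C g f l l' e h hst
  rcases hst with ⟨h0, h1, h2⟩ | ⟨h0, h1, h2⟩ | ⟨h0, v, L, v', L', a, b, c, d, e1, e2, k⟩ | ⟨h0, h2⟩
  · refine Or.inl ⟨h0, h1, ?_⟩
    rcases h2 with h2 | h2 | ⟨v, L, a, b, c, d⟩
    · exact Or.inl h2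
    · exact Or.inr (Or.inl h2)
    · exact Or.inr (Or.inr ⟨v, L, a, b, fun k hk => h _ (c k hk), d⟩)
  · refine Or.inr (Or.inl ⟨h0, h1, ?_⟩)
    rcases h2 with h2 | ⟨s, L, a, b, c, d⟩
    · exact Or.inl h2
    · refine Or.inr ⟨s, L, a, ?_, fun k hk => h _ (c k hk), d⟩
      rcases b with b | b | ⟨k, hk, b⟩
      · exact Or.inl b
      · exact Or.inr (Or.inl b)
      · exact Or.inr (Or.inr ⟨k, hk, h _ b⟩)
  · exact Or.inr (Or.inr (Or.inl ⟨h0, v, L, v', L', a, b, fun k hk => h _ (c k hk),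
      fun k hk => h _ (d k hk), e1, e2, k.imp id (STEPRE.lab_mono h)⟩))
  · refine Or.inr (Or.inr (Or.inr ⟨h0, ?_⟩))
    rcases h2 with h2 | ⟨s, L, s', L', a, b, c, d, k⟩
    · exact Or.inl h2
    · exact Or.inr ⟨s, L, s', L', fun k hk => h _ (a k hk), fun k hk => h _ (b k hk), c, d,
        k.imp id (STEPRE.lab_mono h)⟩

end Pool.Agent.T2h30.IP.MONO
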