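import Pool.Agent.T2h30.IP.Stm

set_option autoImplicit false

/-!
# Ping-pong with a base point
-/

namespace Pool.Agent.T2h30.IP.PP

open Pool.Agent.T2h30.IP Pool.Agent.H599R3.RH Monoid

section
variable {G : Type} [Group G] {H : Bool → Type} [∀ i, Group (H i)] (f : ∀ i, H i →* G)
  {α : Type} [MulAction G α] (Z : Bool → α → Prop) (x0 : α)

/-- the images of the points under a nonempty reduced word -/
theorem word_pp (hpp : ∀ i j, i ≠ j → ∀ h : H i, h ≠ 1 → ∀ z, Z j z → Z i (f i h • z))
    (hb : ∀ h : H true, h ≠ 1 → ∀ z, Z false z → f true h • z ≠ x0)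
    {i j : Bool} (w : CoprodI.NeWord H i j) :
    ∀ k, j ≠ k → ∀ z, Z k z →
      Z i (CoprodI.lift f w.prod • z) ∧ (i = true → CoprodI.lift f w.prod • z ≠ x0) := by
  induction w with
  | @singleton i x hx =>
    intro k hk z hz
    have h1 : CoprodI.lift f (CoprodI.NeWord.singleton x hx).prod = f i x := by simp
    rw [h1]
    refine ⟨hpp i k hk x hx z hz, ?_⟩
    rintro rfl
    cases k
    · exact hb x hx z hz
    · exact absurd rfl hk
  | @append i j k l w₁ hne w₂ ih₁ ih₂ =>
    intro k' hk z hz
    have h1 : CoprodI.lift f (CoprodI.NeWord.append w₁ hne w₂).prod • z =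
        CoprodI.lift f w₁.prod • (CoprodI.lift f w₂.prod • z) := by
      simp [mul_smul]
    rw [h1]
    exact ih₁ k hne _ (ih₂ k' hk z hz).1

/-- the value of a nonempty reduced word is not trivial -/
theorem word_ne (hpp : ∀ i j, i ≠ j → ∀ h : H i, h ≠ 1 → ∀ z, Z j z → Z i (f i h • z))
    (hb : ∀ h : H true, h ≠ 1 → ∀ z, Z false z → f true h • z ≠ x0)
    (hx0 : Z true x0) (hy : ∃ y, Z false y) (hd : ∀ z, Z true z → ¬ Z false z)
    {i j : Bool} (w : CoprodI.NeWord H i j) : CoprodI.lift f w.prod ≠ 1 := by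
  cases i <;> cases j
  · intro h
    have h1 := (word_pp f Z x0 hpp hb w true (by simp) x0 hx0).1
    rw [h, one_smul] at h1
    exact hd _ hx0 h1
  · intro h
    have h1 := (word_pp f Z x0 hpp hb w.inv true (by simp) x0 hx0).2 rfl
    apply h1
    rw [CoprodI.NeWord.inv_prod, map_inv, h, inv_one, one_smul]
  · intro h
    have h1 := (word_pp f Z x0 hpp hb w true (by simp) x0 hx0).2 rfl
    apply h1
    rw [h, one_smul]
  · intro h
    obtain ⟨y, hy⟩ := hy
    have h1 := (word_pp f Z x0 hpp hb w false (by simp) y hy).1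
    rw [h, one_smul] at h1
    exact hd _ h1 hy

set_option backward.isDefEq.respectTransparency false in
/-- the ping-pong lemma -/
theorem lift_inj (hpp : ∀ i j, i ≠ j → ∀ h : H i, h ≠ 1 → ∀ z, Z j z → Z i (f i h • z))
    (hb : ∀ h : H true, h ≠ 1 → ∀ z, Z false z → f true h • z ≠ x0)
    (hx0 : Z true x0) (hy : ∃ y, Z false y) (hd : ∀ z, Z true z → ¬ Z false z) :
    Function.Injective (CoprodI.lift f) := by
  classical
    apply (injective_iff_map_eq_one (CoprodI.lift f)).mpr
    rw [(CoprodI.Word.equiv).forall_congr_left]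
    intro w Heq
    dsimp [CoprodI.Word.equiv] at *
    have : w = CoprodI.Word.empty := by
      by_contra hnotempty
      obtain ⟨i, j, w, rfl⟩ := CoprodI.NeWord.of_word w hnotempty
      exact word_ne f Z x0 hpp hb hx0 hy hd w Heq
    rw [this, CoprodI.Word.prod_empty]

end

theorem t_PP : S_PP := by
  intro G α _ _ A B hA hB hgen X Y x0 hx0 hY hd h1 h2
  let K : Bool → Subgroup G := fun b => if b then A else B
  let f : ∀ b, K b →* G := fun b => (K b).subtype
  have hinj : Function.Injective (Monoid.CoprodI.lift f) := by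
    refine lift_inj f (fun b x => if b then X x else Y x) x0 ?_ ?_ hx0 hY hd
    · intro b b' hbb h hh
      cases b <;> cases b'
      · exact absurd rfl hbb
      · intro x hx
        exact h2 h.1 h.2 (fun h0 => hh (Subtype.ext h0)) x hx
      · intro x hx
        exact (h1 h.1 h.2 (fun h0 => hh (Subtype.ext h0)) x hx).1
      · exact absurd rfl hbb
    · intro h hh x hx
      exact (h1 h.1 h.2 (fun h0 => hh (Subtype.ext h0)) x hx).2
  let F : Monoid.Coprod A B →* G := Monoid.Coprod.lift A.subtype B.subtype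
  let j : Monoid.Coprod A B →* Monoid.CoprodI (fun b => K b) :=
    Monoid.Coprod.lift (Monoid.CoprodI.of (M := fun b => K b) (i := true))
      (Monoid.CoprodI.of (M := fun b => K b) (i := false))
  let k : Monoid.CoprodI (fun b => K b) →* Monoid.Coprod A B :=
    Monoid.CoprodI.lift (fun b => match b with
      | true => Monoid.Coprod.inl
      | false => Monoid.Coprod.inr)
  have hkj : k.comp j = MonoidHom.id _ := by
    apply Monoid.Coprod.hom_ext
    · ext x; simp [k, j]
    · ext x; simp [k, j]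
  have hF : F = (Monoid.CoprodI.lift f).comp j := by
    apply Monoid.Coprod.hom_ext
    · ext x; simp [F, j, f]
    · ext x; simp [F, j, f]
  have hFi : Function.Injective F := by
    intro x y hxy
    rw [hF] at hxy
    have h3 : j x = j y := hinj hxy
    have h4 := congrArg k h3
    have h5 : ∀ z, k (j z) = z := fun z => DFunLike.congr_fun hkj z
    rwa [h5, h5] at h4
  have hFs : Function.Surjective F := by
    rw [← MonoidHom.range_eq_top, eq_top_iff, ← hgen]
    apply sup_le
    · intro a ha
      exact ⟨Monoid.Coprod.inl ⟨a, ha⟩, by simp [F]⟩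
    · intro b hb
      exact ⟨Monoid.Coprod.inr ⟨b, hb⟩, by simp [F]⟩
  refine ⟨A, B, inferInstance, inferInstance, ?_, ?_,
    ⟨(MulEquiv.ofBijective F ⟨hFi, hFs⟩).symm⟩⟩
  · obtain ⟨a, ha, ha1⟩ := hA
    exact ⟨⟨a, ha⟩, 1, fun h => ha1 (congrArg Subtype.val h)⟩
  · obtain ⟨a, ha, ha1⟩ := hB
    exact ⟨⟨a, ha⟩, 1, fun h => ha1 (congrArg Subtype.val h)⟩

end Pool.Agent.T2h30.IP.PP
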