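import Pool.Agent.T2h30.IP.Stm
import Pool.Agent.Q32.DP.FREE
import Pool.Agent.Q32.DP.Struct

set_option autoImplicit false

namespace Pool.Agent.T2h30.IP.PROPS

open Pool.Agent.Q223.IS Pool.Agent.Q32.DP Pool.Agent.T2h30.IP

theorem finC_of_centerless {G : Type} [Group G] (h : Centerless G) : FinC G := by
  have : Subgroup.center G = ⊥ := by
    rw [eq_bot_iff]
    intro z hz
    rw [Subgroup.mem_bot]
    exact h z fun g => (Subgroup.mem_center_iff.1 hz g).symm
  unfold FinC
  rw [this]
  infer_instance

theorem not_infCyc_of_finC {G : Type} [Group G] (h : FinC G) : ¬ InfCyc G := by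
  rintro ⟨e⟩
  have hinj : Function.Injective (fun n : ℤ => (⟨e.symm (Multiplicative.ofAdd n), by
      rw [Subgroup.mem_center_iff]
      intro g
      apply e.injective
      rw [map_mul, map_mul, mul_comm]⟩ : Subgroup.center G)) := by
    intro m n hmn
    have := congrArg Subtype.val hmn
    exact Multiplicative.ofAdd.injective (e.symm.injective this)
  haveI : Finite (Subgroup.center G) := h
  exact not_finite_iff_infinite.2 (inferInstance : Infinite ℤ) (Finite.of_injective _ hinj)

theorem not_infCyc_prod {A B : Type} [Group A] [Group B] {a : A} {b : B} (ha : a ≠ 1)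
    (hb : b ≠ 1) : ¬ InfCyc (A × B) := by
  rintro ⟨e⟩
  let m : ℤ := Multiplicative.toAdd (e (a, 1))
  let n : ℤ := Multiplicative.toAdd (e (1, b))
  have hm : m ≠ 0 := by
    intro h
    have : e (a, 1) = 1 := Multiplicative.toAdd.injective h
    rw [map_eq_one_iff e e.injective] at this
    exact ha (congrArg Prod.fst this)
  have hn : n ≠ 0 := by
    intro h
    have : e (1, b) = 1 := Multiplicative.toAdd.injective h
    rw [map_eq_one_iff e e.injective] at this
    exact hb (congrArg Prod.snd this)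
  have h1 : (a, (1 : B)) ^ n = ((1 : A), b) ^ m := by
    apply e.injective
    rw [map_zpow, map_zpow]
    apply Multiplicative.toAdd.injective
    rw [toAdd_zpow, toAdd_zpow]
    show n • m = m • n
    rw [smul_eq_mul, smul_eq_mul, mul_comm]
  have h2 : (a, (1 : B)) ^ n = 1 := by
    have h3 : a ^ n = 1 := by
      have := congrArg Prod.fst h1
      simpa using this
    apply Prod.ext
    · simpa using h3
    · simp
  have h4 : e ((a, (1 : B)) ^ n) = 1 := by rw [h2, map_one]
  rw [map_zpow] at h4
  have h5 := congrArg Multiplicative.toAdd h4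
  rw [toAdd_zpow, toAdd_one] at h5
  have h6 : n * m = 0 := h5
  rcases mul_eq_zero.1 h6 with h | h
  · exact hn h
  · exact hm h

theorem t_PROPS : S_PROPS := by
  rintro A B _ _ ⟨a, ha⟩ ⟨b, hb⟩
  have hc : Centerless (Monoid.Coprod A B) := FREE.centerless ha hb
  refine ⟨⟨hc, finC_of_centerless hc, FREE.indec ha hb, ?_⟩, ⟨⟨(a, 1), fun h => ha (congrArg Prod.fst h)⟩, ?_⟩, not_infCyc_prod ha hb⟩
  · rintro ⟨e⟩
    apply FREE.not_cyclic (A := A) (B := B) ha hb
    refine ⟨e.symm (Multiplicative.ofAdd 1), fun x => ⟨Multiplicative.toAdd (e x), ?_⟩⟩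
    apply e.injective
    rw [map_zpow, MulEquiv.apply_symm_apply]
    apply Multiplicative.toAdd.injective
    rw [toAdd_zpow, toAdd_ofAdd, smul_eq_mul, mul_one]
  · rintro C D _ _ ⟨e⟩
    by_contra hcon
    rw [not_or] at hcon
    obtain ⟨h1, h2⟩ := hcon
    push Not at h1 h2
    obtain ⟨c, hc⟩ := h1
    obtain ⟨d, hd⟩ := h2
    rcases (FREE.indec hc hd).2 A B ⟨e.symm⟩ with h4 | h4
    · exact ha (h4 a)
    · exact hb (h4 b)

end Pool.Agent.T2h30.IP.PROPS
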