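import Pool.Agent.T2h30.IP.Stm
import Pool.Agent.Q32.DP.STEPRE

set_option autoImplicit false

namespace Pool.Agent.T2h30.IP.RE3

open Pool.Agent.Q223.IS Pool.Agent.Q32.DP Pool.Agent.T2h30.IP Pool.Agent.Helper926
open Pool.Agent.Q32.DP.STEPRE

theorem t_RE3 : S_RE3 := by
  intro C f hC hf
  obtain ⟨Q, hQ, hQe⟩ := FPROD.t
  have eQ : ∀ (p : Pres) (s : ℕ) (L : List Pres),
      Nonempty (PG p ≃* PG (Q (s, L))) ↔ Nonempty (PG p ≃* FLs s L) := by
    intro p m L
    obtain ⟨e⟩ := hQe m L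
    exact ⟨fun ⟨i⟩ => ⟨i.trans e⟩, fun ⟨i⟩ => ⟨i.trans e.symm⟩⟩
  have h1 : Computable fun z : List Fact × Fact => z.2.2.1 :=
    Computable.fst.comp (Computable.snd.comp Computable.snd)
  have h2 : Computable fun z : List Fact × Fact => z.2.2.2 :=
    Computable.snd.comp (Computable.snd.comp Computable.snd)
  have hc : REPred fun z : List Fact × Fact =>
      C z.2.2.1 ∧ C z.2.2.2 ∧ false ∈ f (z.2.2.1, z.2.2.2) :=
    RE.and (RE.comp hC h1) (RE.and (RE.comp hC h2) (NONMATCH.re_mem hf false (h1.pair h2)))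
  refine (RE.and (RE.eq (Computable.fst.comp Computable.snd) (Computable.const 2))
      (RE.or hc (rule2 0 hQ))).of_eq fun z => ?_
  unfold R3
  simp only [Prod.exists, eQ]

end Pool.Agent.T2h30.IP.RE3

namespace Pool.Agent.T2h30.IP.RE2

open Pool.Agent.Q223.IS Pool.Agent.Q32.DP Pool.Agent.T2h30.IP Pool.Agent.Helper926
open Pool.Agent.Q32.DP.STEPRE

abbrev W : Type := (List Fact × Fact) × ((Pres × List Pres) × (Pres × List Pres))

theorem t_RE2 : S_RE2 := by
  intro V g hV hg
  obtain ⟨P, hP, hPe⟩ := PRODL.t PROD2.t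
  have eP : ∀ (p v : Pres) (L : List Pres),
      Nonempty (PG p ≃* PG (P (v, L))) ↔ Nonempty (PG p ≃* PG v × PL L) := by
    intro p m L
    obtain ⟨e⟩ := hPe m L
    exact ⟨fun ⟨i⟩ => ⟨i.trans e⟩, fun ⟨i⟩ => ⟨i.trans e.symm⟩⟩
  have key : REPred fun z : List Fact × Fact =>
      ∃ w : (Pres × List Pres) × (Pres × List Pres), V w.1.1 ∧ V w.2.1 ∧
        (∀ k ∈ w.1.2, ((1, k, k) : Fact) ∈ z.1) ∧
        (∀ k ∈ w.2.2, ((1, k, k) : Fact) ∈ z.1) ∧ Nonempty (PG z.2.2.1 ≃* PG (P w.1)) ∧
        Nonempty (PG z.2.2.2 ≃* PG (P w.2)) ∧ (false ∈ g (w.1.1, w.2.1) ∨ Lab z.1 w.1.2 w.2.2) := by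
    refine RE.ex (p := fun (z : List Fact × Fact) (w : (Pres × List Pres) × (Pres × List Pres)) =>
        V w.1.1 ∧ V w.2.1 ∧ (∀ k ∈ w.1.2, ((1, k, k) : Fact) ∈ z.1) ∧
        (∀ k ∈ w.2.2, ((1, k, k) : Fact) ∈ z.1) ∧ Nonempty (PG z.2.2.1 ≃* PG (P w.1)) ∧
        Nonempty (PG z.2.2.2 ≃* PG (P w.2)) ∧ (false ∈ g (w.1.1, w.2.1) ∨ Lab z.1 w.1.2 w.2.2)) ?_
    have hz : Computable fun a : W => a.1.1 := Computable.fst.comp Computable.fst
    have h1 : Computable fun a : W => a.1.2.2.1 :=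
      Computable.fst.comp (Computable.snd.comp (Computable.snd.comp Computable.fst))
    have h2 : Computable fun a : W => a.1.2.2.2 :=
      Computable.snd.comp (Computable.snd.comp (Computable.snd.comp Computable.fst))
    have w1 : Computable fun a : W => a.2.1 := Computable.fst.comp Computable.snd
    have w2 : Computable fun a : W => a.2.2 := Computable.snd.comp Computable.snd
    refine RE.and ?_ (RE.and ?_ (RE.and ?_ (RE.and ?_ (RE.and ?_ (RE.and ?_ (RE.or ?_ ?_))))))
    · exact RE.comp (p := V) hV (Computable.fst.comp w1)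
    · exact RE.comp (p := V) hV (Computable.fst.comp w2)
    · exact mem_re 1 (Computable.snd.comp w1) hz
    · exact mem_re 1 (Computable.snd.comp w2) hz
    · exact RE.comp iso_re (f := fun a : W => (a.1.2.2.1, P a.2.1)) (h1.pair (hP.to_comp.comp w1))
    · exact RE.comp iso_re (f := fun a : W => (a.1.2.2.2, P a.2.2)) (h2.pair (hP.to_comp.comp w2))
    · exact NONMATCH.re_mem hg false ((Computable.fst.comp w1).pair (Computable.fst.comp w2))
    · exact RE.comp lab_re (f := fun a : W => (a.1.1, (a.2.1.2, a.2.2.2)))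
        (hz.pair ((Computable.snd.comp w1).pair (Computable.snd.comp w2)))
  refine (RE.and (RE.eq (Computable.fst.comp Computable.snd) (Computable.const 2)) key).of_eq
    fun z => ?_
  unfold R2
  simp only [Prod.exists, eP]

end Pool.Agent.T2h30.IP.RE2

namespace Pool.Agent.T2h30.IP.RE01

open Pool.Agent.Q223.IS Pool.Agent.Q32.DP Pool.Agent.T2h30.IP Pool.Agent.Helper926
open Pool.Agent.Q32.DP.STEPRE

theorem re0 (V C : Pres → Prop) (g : Pres × Pres →. Bool) (hV : REPred V) (hC : REPred C)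
    (hg : Partrec g) : REPred (R0 V C g) := by
  obtain ⟨P, hP, hPe⟩ := PRODL.t PROD2.t
  have eP : ∀ (p v : Pres) (L : List Pres),
      Nonempty (PG p ≃* PG (P (v, L))) ↔ Nonempty (PG p ≃* PG v × PL L) := by
    intro p m L
    obtain ⟨e⟩ := hPe m L
    exact ⟨fun ⟨i⟩ => ⟨i.trans e⟩, fun ⟨i⟩ => ⟨i.trans e.symm⟩⟩
  have h1 : Computable fun z : List Fact × Fact => z.2.2.1 :=
    Computable.fst.comp (Computable.snd.comp Computable.snd)
  have h2 : Computable fun z : List Fact × Fact => z.2.2.2 :=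
    Computable.snd.comp (Computable.snd.comp Computable.snd)
  have key : REPred fun z : List Fact × Fact => ∃ x : Pres × List Pres, V x.1 ∧
      (2 ≤ x.2.length ∨ (1 ≤ x.2.length ∧ false ∈ g (x.1, tc))) ∧
      (∀ k ∈ x.2, ((1, k, k) : Fact) ∈ z.1) ∧ Nonempty (PG z.2.2.1 ≃* PG (P x)) := by
    refine RE.ex (p := fun (z : List Fact × Fact) (x : Pres × List Pres) => V x.1 ∧
      (2 ≤ x.2.length ∨ (1 ≤ x.2.length ∧ false ∈ g (x.1, tc))) ∧
      (∀ k ∈ x.2, ((1, k, k) : Fact) ∈ z.1) ∧ Nonempty (PG z.2.2.1 ≃* PG (P x))) ?_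
    have x1 : Computable fun a : (List Fact × Fact) × (Pres × List Pres) => a.2.1 :=
      Computable.fst.comp Computable.snd
    have x2 : Computable fun a : (List Fact × Fact) × (Pres × List Pres) => a.2.2 :=
      Computable.snd.comp Computable.snd
    have xl : Computable fun a : (List Fact × Fact) × (Pres × List Pres) => a.2.2.length :=
      Computable.list_length.comp x2
    refine RE.and ?_ (RE.and (RE.or ?_ (RE.and ?_ ?_)) (RE.and ?_ ?_))
    · exact RE.comp (p := V) hV x1
    · exact RE.le (Computable.const 2) xl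
    · exact RE.le (Computable.const 1) xl
    · exact NONMATCH.re_mem hg false (x1.pair (Computable.const tc))
    · exact mem_re 1 x2 (Computable.fst.comp Computable.fst)
    · exact RE.comp iso_re (f := fun a : (List Fact × Fact) × (Pres × List Pres) =>
        (a.1.2.2.1, P a.2)) ((h1.comp Computable.fst).pair (hP.to_comp.comp Computable.snd))
  refine (RE.and (RE.eq (Computable.fst.comp Computable.snd) (Computable.const 0))
    (RE.and (RE.eq h1 h2) (RE.or (RE.comp hC h1) (RE.or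
      (RE.and (RE.comp hV h1) (RE.and (NONMATCH.re_mem hg false (h1.pair (Computable.const tc)))
        (RE.and (NONMATCH.re_mem hg false (h1.pair (Computable.const zc)))
          (NONMATCH.re_mem hg false (h1.pair (Computable.const dc)))))) key)))).of_eq fun z => ?_
  unfold R0
  simp only [Prod.exists, eP]

theorem re1 (C : Pres → Prop) (hC : REPred C) : REPred (R1 C) := by
  obtain ⟨Q, hQ, hQe⟩ := FPROD.t
  have eQ : ∀ (p : Pres) (s : ℕ) (L : List Pres),
      Nonempty (PG p ≃* PG (Q (s, L))) ↔ Nonempty (PG p ≃* FLs s L) := by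
    intro p m L
    obtain ⟨e⟩ := hQe m L
    exact ⟨fun ⟨i⟩ => ⟨i.trans e⟩, fun ⟨i⟩ => ⟨i.trans e.symm⟩⟩
  have h1 : Computable fun z : List Fact × Fact => z.2.2.1 :=
    Computable.fst.comp (Computable.snd.comp Computable.snd)
  have h2 : Computable fun z : List Fact × Fact => z.2.2.2 :=
    Computable.snd.comp (Computable.snd.comp Computable.snd)
  have key : REPred fun z : List Fact × Fact => ∃ x : ℕ × List Pres, 2 ≤ x.1 + x.2.length ∧
      (3 ≤ x.1 + x.2.length ∨ 1 ≤ x.1 ∨ ∃ k : Pres, k ∈ x.2 ∧ ((2, k, c2) : Fact) ∈ z.1) ∧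
      (∀ k ∈ x.2, ((0, k, k) : Fact) ∈ z.1) ∧ Nonempty (PG z.2.2.1 ≃* PG (Q x)) := by
    refine RE.ex (p := fun (z : List Fact × Fact) (x : ℕ × List Pres) => 2 ≤ x.1 + x.2.length ∧
      (3 ≤ x.1 + x.2.length ∨ 1 ≤ x.1 ∨ ∃ k : Pres, k ∈ x.2 ∧ ((2, k, c2) : Fact) ∈ z.1) ∧
      (∀ k ∈ x.2, ((0, k, k) : Fact) ∈ z.1) ∧ Nonempty (PG z.2.2.1 ≃* PG (Q x))) ?_
    have x1 : Computable fun a : (List Fact × Fact) × (ℕ × List Pres) => a.2.1 :=
      Computable.fst.comp Computable.snd
    have x2 : Computable fun a : (List Fact × Fact) × (ℕ × List Pres) => a.2.2 :=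
      Computable.snd.comp Computable.snd
    have xs : Computable fun a : (List Fact × Fact) × (ℕ × List Pres) =>
        a.2.1 + a.2.2.length := (Primrec.nat_add.comp (Primrec.fst.comp Primrec.snd)
      (Primrec.list_length.comp (Primrec.snd.comp Primrec.snd))).to_comp
    refine RE.and ?_ (RE.and (RE.or ?_ (RE.or ?_ ?_)) (RE.and ?_ ?_))
    · exact RE.le (Computable.const 2) xs
    · exact RE.le (Computable.const 3) xs
    · exact RE.le (Computable.const 1) x1
    · refine RE.ex (p := fun (a : (List Fact × Fact) × (ℕ × List Pres)) (k : Pres) =>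
        k ∈ a.2.2 ∧ ((2, k, c2) : Fact) ∈ a.1.1) ?_
      refine RE.and ?_ ?_
      · exact RE.mem_list (f := fun b : ((List Fact × Fact) × (ℕ × List Pres)) × Pres => b.2)
          (l := fun b => b.1.2.2) Computable.snd (x2.comp Computable.fst)
      · exact RE.mem_list (f := fun b : ((List Fact × Fact) × (ℕ × List Pres)) × Pres =>
          ((2, b.2, c2) : Fact)) (l := fun b => b.1.1.1)
          ((Computable.const 2).pair (Computable.snd.pair (Computable.const c2)))
          (Computable.fst.comp (Computable.fst.comp Computable.fst))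
    · exact mem_re 0 x2 (Computable.fst.comp Computable.fst)
    · exact isoS_re hQ (h1.comp Computable.fst) Computable.snd
  refine (RE.and (RE.eq (Computable.fst.comp Computable.snd) (Computable.const 1))
    (RE.and (RE.eq h1 h2) (RE.or (RE.comp hC h1) key))).of_eq fun z => ?_
  unfold R1
  simp only [Prod.exists, eQ]

theorem t_RE01 : S_RE01 := fun V C g hV hC hg => ⟨re0 V C g hV hC hg, re1 C hC⟩

end Pool.Agent.T2h30.IP.RE01
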