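import Pool.Agent.T2h30.IP.Stm
import Pool.Agent.Q32.DP.SOUND

set_option autoImplicit false

/-!
# SND01 (helper94): soundness of the rules for membership
-/

namespace Pool.Agent.T2h30.IP.SND01

open Pool.Agent.Q223.IS Pool.Agent.Q32.DP Pool.Agent.T2h30.IP

theorem succ_mono (V C : Pres → Prop) (n : ℕ) :
    (∀ p, DD V C n p → DD V C (n + 1) p) ∧ (∀ p, FF V C n p → FF V C (n + 1) p) := by
  induction n with
  | zero =>
    constructor
    · rintro p (hp | hp)
      · exact Or.inl hp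
      · exact Or.inr (Or.inl hp)
    · exact fun p hp => Or.inl hp
  | succ n ih =>
    constructor
    · rintro p (hp | hp | ⟨v, L, hv, hL, hm, he⟩)
      · exact Or.inl hp
      · exact Or.inr (Or.inl hp)
      · exact Or.inr (Or.inr ⟨v, L, hv, fun k hk => ih.2 k (hL k hk), hm, he⟩)
    · rintro p (hp | ⟨m, L, hL, hm, he⟩)
      · exact Or.inl hp
      · exact Or.inr ⟨m, L, fun k hk => ih.1 k (hL k hk), hm, he⟩

/-- the levels increase -/
theorem mono (V C : Pres → Prop) {n n' : ℕ} (h : n ≤ n') :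
    (∀ p, DD V C n p → DD V C n' p) ∧ (∀ p, FF V C n p → FF V C n' p) := by
  induction h with
  | refl => exact ⟨fun _ h => h, fun _ h => h⟩
  | step _ ih =>
    exact ⟨fun p hp => (succ_mono V C _).1 p (ih.1 p hp),
      fun p hp => (succ_mono V C _).2 p (ih.2 p hp)⟩

theorem boundF {V C : Pres → Prop} {l : List Fact} (hl : ∀ x ∈ l, Mean V C x) {L : List Pres}
    (hL : ∀ k ∈ L, ((1, k, k) : Fact) ∈ l) : ∃ n, ∀ k ∈ L, FF V C n k :=
  SOUND.bound (FF V C) (fun _ _ p h => (mono V C h).2 p) L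
    (fun k hk => (hl _ (hL k hk)).2.1 rfl)

theorem boundD {V C : Pres → Prop} {l : List Fact} (hl : ∀ x ∈ l, Mean V C x) {L : List Pres}
    (hL : ∀ k ∈ L, ((0, k, k) : Fact) ∈ l) : ∃ n, ∀ k ∈ L, DD V C n k :=
  SOUND.bound (DD V C) (fun _ _ p h => (mono V C h).1 p) L (fun k hk => (hl _ (hL k hk)).1 rfl)

/-- a negative answer of the solution excludes an isomorphism -/
theorem no_iso {V : Pres → Prop} {g : Pres × Pres →. Bool} (hg : Sol V g) {a b : Pres}
    (ha : V a) (hb : V b) (h : false ∈ g (a, b)) : ¬ Nonempty (PG a ≃* PG b) := by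
  intro hi
  exact absurd (Part.mem_unique ((hg a b ha hb).1 hi) h) (by decide)

/-- trivial groups are isomorphic -/
theorem triv_iso {A B : Type} [Group A] [Group B] (hA : ∀ x : A, x = 1) (hB : ∀ x : B, x = 1) :
    Nonempty (A ≃* B) :=
  ⟨{ toFun := fun _ => 1
     invFun := fun _ => 1
     left_inv := fun x => (hA x).symm
     right_inv := fun x => (hB x).symm
     map_mul' := fun _ _ => (mul_one 1).symm }⟩

theorem nontriv (hc : S_CODES) {V C : Pres → Prop} {g : Pres × Pres →. Bool} (hV : Hyp V C)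
    (hg : Sol V g) {v : Pres} (hv : V v) (h : false ∈ g (v, tc)) : ∃ x : PG v, x ≠ 1 := by
  by_contra hcon
  push Not at hcon
  exact no_iso hg hv (hV.triv tc hc.1) h (triv_iso hcon hc.1)

theorem t_SND01 (hc : S_CODES) : S_SND01 := by
  rintro V C g hV hg l ⟨e, p, q⟩ hl h
  rcases h with ⟨h0, h1, h⟩ | ⟨h0, h1, h⟩
  · simp only at h0 h1 h
    subst h0
    refine ⟨fun _ => ?_, fun h => absurd (show (_ : ℕ) = _ from h) (by simp),
      fun h => absurd (show (_ : ℕ) = _ from h) (by simp)⟩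
    rcases h with h | ⟨hp, ht, hz, hd⟩ | ⟨v, L, hv, hm, hL, he⟩
    · exact ⟨0, Or.inl h⟩
    · refine ⟨0, Or.inr ⟨hp, nontriv hc hV hg hp ht, ?_, ?_⟩⟩
      · rintro ⟨e1⟩
        obtain ⟨e2⟩ := hc.2.1
        exact no_iso hg hp (hV.int zc hc.2.1) hz ⟨e1.trans e2.symm⟩
      · rintro ⟨e1⟩
        obtain ⟨e2⟩ := hc.2.2.2.1
        exact no_iso hg hp (hV.dih dc hc.2.2.2.1) hd ⟨e1.trans e2.symm⟩
    · obtain ⟨n, hn⟩ := boundF hl hL
      refine ⟨n + 1, Or.inr (Or.inr ⟨v, L, hv, hn, ?_, he⟩)⟩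
      rcases hm with hm | ⟨hm, hf⟩
      · exact Or.inl hm
      · exact Or.inr ⟨hm, nontriv hc hV hg hv hf⟩
  · simp only at h0 h1 h
    subst h0
    refine ⟨fun h => absurd (show (_ : ℕ) = _ from h) (by simp), fun _ => ?_,
      fun h => absurd (show (_ : ℕ) = _ from h) (by simp)⟩
    rcases h with h | ⟨s, L, hs, h3, hL, he⟩
    · exact ⟨0, h⟩
    · obtain ⟨n, hn⟩ := boundD hl hL
      refine ⟨n + 1, Or.inr ⟨s, L, hn, hs, ?_, he⟩⟩
      rcases h3 with h3 | h3 | ⟨k, hk, hkl⟩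
      · exact Or.inl h3
      · exact Or.inr (Or.inl h3)
      · refine Or.inr (Or.inr ⟨k, hk, ?_⟩)
        rintro ⟨e1⟩
        obtain ⟨e2⟩ := hc.2.2.1
        exact (hl _ hkl).2.2 rfl ⟨e1.trans e2.symm⟩

end Pool.Agent.T2h30.IP.SND01
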