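import Pool.Agent.T2h30.IP.Lev
import Pool.Agent.Q32.DP.SOUND

set_option autoImplicit false

/-!
# SND23 (helper25): soundness of the rules for non-isomorphism
-/

namespace Pool.Agent.T2h30.IP.SND23

open Pool.Agent.Q223.IS Pool.Agent.Q32.DP Pool.Agent.T2h30.IP

theorem boundF {V C : Pres → Prop} {l : List Fact} (hl : ∀ x ∈ l, Mean V C x) {L : List Pres}
    (hL : ∀ k ∈ L, ((1, k, k) : Fact) ∈ l) : ∃ n, ∀ k ∈ L, FF V C n k :=
  SOUND.bound (FF V C) (fun _ _ _ h => LEV.monoF V C h) L (fun k hk => (hl _ (hL k hk)).2.1 rfl)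

theorem boundD {V C : Pres → Prop} {l : List Fact} (hl : ∀ x ∈ l, Mean V C x) {L : List Pres}
    (hL : ∀ k ∈ L, ((0, k, k) : Fact) ∈ l) : ∃ n, ∀ k ∈ L, DD V C n k :=
  SOUND.bound (DD V C) (fun _ _ _ h => LEV.monoD V C h) L (fun k hk => (hl _ (hL k hk)).1 rfl)

/-- labels exclude a matching -/
theorem lab_no {V C : Pres → Prop} {l : List Fact} (hl : ∀ x ∈ l, Mean V C x) {L L' : List Pres}
    (h : Lab l L L') (σ : Fin L.length ≃ Fin L'.length)
    (hσ : ∀ i, Nonempty (PG (L.get i) ≃* PG (L'.get (σ i)))) : False := by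
  obtain ⟨u, v, hu, hv, hn, hW⟩ := h
  apply hn
  rw [List.perm_iff_count]
  intro c
  refine NONMATCH.count_of_match (((finCongr hu).trans σ).trans (finCongr hv.symm)) ?_ c
  intro i
  by_contra hne
  have mA : (L.get (finCongr hu i), u.get i) ∈ L.zip u :=
    SOUND.zip_mem L u i (by have := (finCongr hu i).2; simpa using this) i.2
  have mB : (L'.get (σ (finCongr hu i)), v.get (finCongr hv.symm (σ (finCongr hu i)))) ∈ L'.zip v :=
    SOUND.zip_mem L' v (σ (finCongr hu i)) (σ (finCongr hu i)).2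
      (by have := (finCongr hv.symm (σ (finCongr hu i))).2; simpa using this)
  have h1 := (hW _ (List.mem_append_left _ mA) _ (List.mem_append_right _ mB)).2 hne
  exact (hl _ h1).2.2 rfl (hσ _)

end Pool.Agent.T2h30.IP.SND23

namespace Pool.Agent.T2h30.IP

open Pool.Agent.Q223.IS Pool.Agent.Q32.DP

theorem t_SND23 (hM : S_MEM) (hK : S_KRS) (hKF : S_KSFG) : S_SND23 := by
  rintro V C g f hV hg hf l ⟨e, p, q⟩ hl h
  have hmem := hM V C hV
  have he : e = 2 := by
    rcases h with h | h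
    · exact h.1
    · exact h.1
  subst he
  refine ⟨fun h => absurd (show (_ : ℕ) = _ from h) (by simp),
    fun h => absurd (show (_ : ℕ) = _ from h) (by simp), fun _ => ?_⟩
  rintro ⟨i⟩
  simp only at i
  rcases h with ⟨-, v, L, v', L', hv, hv', hL, hL', ⟨e1⟩, ⟨e2⟩, h⟩ | ⟨-, h⟩
  · obtain ⟨n, hn⟩ := SND23.boundF hl hL
    obtain ⟨n', hn'⟩ := SND23.boundF hl hL'
    have hK1 := fun i : Fin L.length => (hmem n).2 _ (hn (L.get i) (List.get_mem L i))
    have hK2 := fun i : Fin L'.length => (hmem n').2 _ (hn' (L'.get i) (List.get_mem L' i))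
    obtain ⟨⟨e3⟩, σ, hσ⟩ := hK (PG v) (PG v') L.length L'.length
      (fun i => PG (L.get i)) (fun i => PG (L'.get i))
      (fun i => ⟨(hK1 i).1, (hK1 i).2.1, (hK1 i).2.2 v' hv'⟩)
      (fun i => ⟨(hK2 i).1, (hK2 i).2.1, (hK2 i).2.2 v hv⟩) ⟨(e1.symm.trans i).trans e2⟩
    rcases h with h | h
    · exact absurd (Part.mem_unique ((hg v v' hv hv').1 ⟨e3⟩) h) (by decide)
    · exact SND23.lab_no hl h σ hσ
  · rcases h with ⟨hp, hq, h⟩ | ⟨s, L, s', L', hL, hL', ⟨e1⟩, ⟨e2⟩, h⟩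
    · exact absurd (Part.mem_unique ((hf p q hp hq).1 ⟨i⟩) h) (by decide)
    · obtain ⟨n, hn⟩ := SND23.boundD hl hL
      obtain ⟨n', hn'⟩ := SND23.boundD hl hL'
      have hK1 := fun i : Fin L.length => (hmem n).1 _ (hn (L.get i) (List.get_mem L i))
      have hK2 := fun i : Fin L'.length => (hmem n').1 _ (hn' (L'.get i) (List.get_mem L' i))
      obtain ⟨e3, σ, hσ⟩ := hKF s s' L.length L'.length
        (fun i => PG (L.get i)) (fun i => PG (L'.get i)) hK1 hK2 ⟨(e1.symm.trans i).trans e2⟩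
      rcases h with h | h
      · exact h e3
      · exact SND23.lab_no hl h σ hσ

end Pool.Agent.T2h30.IP
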