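import Pool.Agent.T2h30.IP.Stm

set_option autoImplicit false

/-! # SUM: two normal endomorphisms with sum the identity (helper3) -/

namespace Pool.Agent.T2h30.IP.SUM

open Pool.Agent.Q223.IS Pool.Agent.Q32.DP Pool.Agent.T2h30.IP

theorem t_SUM : S_FIT → S_SUM := by
  intro hfit K _ α β hfin hK hα hβ hcom hsum
  rcases hfit K α hfin hK hα with h1 | ⟨a, ha⟩
  · exact Or.inl h1
  rcases hfit K β hfin hK hβ with h2 | ⟨b, hb⟩
  · exact Or.inr h2
  exfalso
  have hab : ∀ x, α (β x) = β (α x) := by
    intro x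
    have e1 : α (α x) * α (β x) = α x := by rw [← map_mul, hsum]
    have e2 : α (α x) * β (α x) = α x := hsum (α x)
    exact mul_left_cancel (e1.trans e2.symm)
  have hαi : ∀ (i : ℕ) (x : K), (⇑α)^[i] (β x) = β ((⇑α)^[i] x) := by
    intro i
    induction i with
    | zero => intro x; rfl
    | succ i ih => intro x; rw [Function.iterate_succ_apply, Function.iterate_succ_apply, hab, ih]
  have step : ∀ (i j : ℕ) (y : K), (⇑α)^[i + 1] ((⇑β)^[j] y) * (⇑α)^[i] ((⇑β)^[j + 1] y) =
      (⇑α)^[i] ((⇑β)^[j] y) := by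
    intro i j y
    rw [Function.iterate_succ_apply' (⇑β), hαi, Function.iterate_succ_apply' (⇑α)]
    exact hsum _
  have key : ∀ n : ℕ, (∀ i j : ℕ, i + j = n → ∀ y : K, (⇑α)^[i] ((⇑β)^[j] y) = 1) →
      ∀ y : K, y = 1 := by
    intro n
    induction n with
    | zero => intro h y; exact h 0 0 rfl y
    | succ n ih =>
      intro h
      apply ih
      intro i j hij y
      rw [← step i j y, h (i + 1) j (by omega), h i (j + 1) (by omega), one_mul]
  obtain ⟨⟨g, hg⟩, _⟩ := hK
  refine hg (key (a + b) ?_ g)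
  intro i j hij y
  by_cases hi : a ≤ i
  · obtain ⟨k, rfl⟩ := Nat.exists_eq_add_of_le hi
    rw [Function.iterate_add_apply]
    exact ha _
  · obtain ⟨k, rfl⟩ : ∃ k, j = b + k := ⟨j - b, by omega⟩
    rw [Function.iterate_add_apply (⇑β), hb]
    clear hij
    induction i with
    | zero => rfl
    | succ i ih => rw [Function.iterate_succ_apply, map_one]; exact ih (by omega)

end Pool.Agent.T2h30.IP.SUM
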