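import Pool.Agent.T2h30.IP.Stm
import Pool.Agent.Q32.DP.NF

set_option autoImplicit false

/-!
# Levels and small isomorphisms (helper25, for the project IP of helper30)
-/

namespace Pool.Agent.T2h30.IP.LEV

open Pool.Agent.Q223.IS Pool.Agent.Q32.DP Pool.Agent.T2h30.IP Monoid

theorem mono_succ (V C : Pres → Prop) (n : ℕ) :
    (∀ p, DD V C n p → DD V C (n + 1) p) ∧ (∀ p, FF V C n p → FF V C (n + 1) p) := by
  induction n with
  | zero =>
    exact ⟨fun p hp => hp.elim Or.inl fun h => Or.inr (Or.inl h), fun p hp => Or.inl hp⟩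
  | succ n ih =>
    constructor
    · rintro p (hp | hp | ⟨v, L, hv, hL, h⟩)
      · exact Or.inl hp
      · exact Or.inr (Or.inl hp)
      · exact Or.inr (Or.inr ⟨v, L, hv, fun k hk => ih.2 k (hL k hk), h⟩)
    · rintro p (hp | ⟨s, L, hL, h⟩)
      · exact Or.inl hp
      · exact Or.inr ⟨s, L, fun k hk => ih.1 k (hL k hk), h⟩

theorem monoD (V C : Pres → Prop) {n n' : ℕ} (h : n ≤ n') {p : Pres} (hp : DD V C n p) :
    DD V C n' p := by
  induction h with
  | refl => exact hp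
  | step _ ih => exact (mono_succ V C _).1 p ih

theorem monoF (V C : Pres → Prop) {n n' : ℕ} (h : n ≤ n') {p : Pres} (hp : FF V C n p) :
    FF V C n' p := by
  induction h with
  | refl => exact hp
  | step _ ih => exact (mono_succ V C _).2 p ih

/-- One direct factor. -/
def d1 (k : Pres) : PL [k] ≃* PG k := (Red.consE k []).trans (NF.prodTriv NF.pl0)

theorem tcV {V C : Pres → Prop} (hV : Hyp V C) (hc : S_CODES) : V tc := hV.triv tc hc.1

/-- `V` is closed under isomorphism. -/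
theorem isoV {V C : Pres → Prop} (hV : Hyp V C) (hc : S_CODES) {v p : Pres} (hv : V v)
    (e : PG p ≃* PG v) : V p :=
  hV.prod v tc p hv (tcV hV hc) ⟨e.trans (NF.prodTriv hc.1).symm⟩

/-- Two groups of order two. -/
theorem two_dih {k k' : Pres} (e : PG k ≃* Z2) (e' : PG k' ≃* Z2) :
    Nonempty (FLs 0 [k, k'] ≃* Dih) :=
  ⟨(Struct.consFLs 0 k [k']).trans (MulEquiv.coprodCongr e ((NF.f1 k').trans e'))⟩

theorem c2_NV {V C : Pres → Prop} (hV : Hyp V C) (hc : S_CODES) : NV V c2 := by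
  obtain ⟨h1, h2, ⟨e⟩, h4, h5, h6⟩ := hc
  refine ⟨hV.two c2 ⟨e⟩, ?_, ?_, ?_⟩
  · obtain ⟨z, hz⟩ := h5.1
    refine ⟨e.symm z, fun h => hz ?_⟩
    rw [← e.apply_symm_apply z, h, map_one]
  · rintro ⟨f⟩
    exact h6 ⟨e.symm.trans f⟩
  · rintro ⟨f⟩
    obtain ⟨z, hz⟩ := h5.1
    rcases h5.2 Z2 Z2 ⟨e.symm.trans f⟩ with h | h
    · exact hz (h z)
    · exact hz (h z)

end Pool.Agent.T2h30.IP.LEV
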