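import Pool.Agent.Q32.DP.Stm3
import Pool.Agent.Q32.DP.REDD
import Pool.Agent.Q32.DP.FPROD
import Pool.Agent.Q32.DP.PROD2
import Pool.Agent.Q281.KG.Kurosh

set_option autoImplicit false

/-!
# Direct and free products and the isomorphism problem, with torsion and infinite centres

Hand-in `MP_32d917_al` (helper30). Generalisation of `Pool.Agent.Results.MP_32d917_al.BuiltByProducts`
(library `Pool.Agent.Q32.DP`): two base classes, `V` (for instance all virtually polycyclic groups)
and `C` (for instance the one-ended hyperbolic groups without direct factors). Notation as in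
`Pool.Agent.Q32.DP.Stm`, `Stm2`, `Stm3`. Every `S_...` is a part; its proof is sketched in the
comment. -/

namespace Pool.Agent.T2h30.IP

open Pool.Agent.Q223.IS Pool.Agent.Q32.DP Pool.Agent.H599R3.RH

/-- Finite centre. -/
def FinC (G : Type) [Group G] : Prop := Finite (Subgroup.center G)

/-- Infinite cyclic. -/
def InfCyc (G : Type) [Group G] : Prop := Nonempty (G ≃* Multiplicative ℤ)

/-- `K` is isomorphic to a direct factor of `G`. -/
def DirF (K G : Type) [Group K] [Group G] : Prop :=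
  ∃ (B : Type) (_ : Group B), Nonempty (G ≃* K × B)

/-- The group of order two. -/
abbrev Z2 : Type := Multiplicative (ZMod 2)

/-- The infinite dihedral group. -/
abbrev Dih : Type := Monoid.Coprod Z2 Z2

/-! ### Direct products -/

/-- FIT (Fitting): normal endomorphisms of directly indecomposable groups with finite centre.

Proof. `c x := (θ x)⁻¹ * x` commutes with all `θ y` (from `θ (g * y * g⁻¹) = g * θ y * g⁻¹`
and `θ (g * y * g⁻¹) = θ g * θ y * (θ g)⁻¹`), hence `c` is a homomorphism, `θ x * c x = x`,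
`θ (c x) = c (θ x)`; this element is in `θ K` and in `c K`, so it is central. `θ` maps the finite
centre `Z` to itself; choose `N` with `θ^N Z = θ^(N+1) Z = ...` and `θ` injective on `θ^N Z`. For
`n ≥ N + 1`: `θ^n K = θ^(n+1) K` (`θ^n y = θ^(n+1) y * θ^(n-1) (θ (c y))`, and
`θ^(n-1) Z = θ^(n+1) Z`), `ker θ^n = ker θ^(n+1)` (if `θ^(n+1) x = 1` then
`θ^n x = θ^(n-1) (θ (c x))` is in `θ^(n-1) Z` and killed by `θ`). So for `φ = θ^(N+1)` the image of `φ`
is the image of `φ^2`, the kernel of `φ` is the kernel of `φ^2`, `K ≃* φ.range × φ.ker` (both are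
normal, so they commute), and one of the two is trivial. -/
def S_FIT : Prop := ∀ (K : Type) [Group K] (θ : K →* K), FinC K → Indecomposable K →
  (∀ g x : K, θ (g * x * g⁻¹) = g * θ x * g⁻¹) →
  Function.Bijective θ ∨ ∃ n : ℕ, ∀ x : K, (⇑θ)^[n] x = 1

/-- SUM: if the sum of two normal endomorphisms is the identity then one is bijective.

Proof from FIT: otherwise some iterates `α^a`, `β^b` are trivial. `α (β x) = β (α x)` (compare
`α (α x * β x)` with `α (α x) * β (α x)`). For all `n`: if `α^i (β^j y) = 1` for all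
`i + j = n` and all `y` then `K` is trivial (induction on `n`:
`α^i (β^j y) = α^(i+1) (β^j y) * α^i (β^(j+1) y)`); take `n = a + b`. -/
def S_SUM : Prop := ∀ (K : Type) [Group K] (α β : K →* K), FinC K → Indecomposable K →
  (∀ g x : K, α (g * x * g⁻¹) = g * α x * g⁻¹) →
  (∀ g x : K, β (g * x * g⁻¹) = g * β x * g⁻¹) →
  (∀ x y : K, α x * β y = β y * α x) → (∀ x : K, α x * β x = x) →
  Function.Bijective α ∨ Function.Bijective β

/-- EXC: the exchange property.

Proof from SUM. Let `e : K × M ≃* P × Q`, `p x := (e (x, 1)).1`, `q x := (e (x, 1)).2`,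
`α x := (e.symm (p x, 1)).1`, `β x := (e.symm (1, q x)).1`; SUM applies. Let `α` be
bijective (the other case is symmetric), `g : P →* K`, `g y := (e.symm (y, 1)).1`, `B := g.ker`.
`P ≃* K × B`: the map `K × B → P`, `(x, b) ↦ p x * b` is an isomorphism (`p.range` is normal in `P`
because `P` is a quotient of `K × M`; `p.range ⊓ B = ⊥` since `g ∘ p = α` is injective; so they
commute; `P = p.range * B` since `α` is surjective). `M ≃* B × Q`: the map `B × Q → M`,
`(b, y) ↦ (e.symm (b, y)).2` is injective (if `(e.symm (b, y)).2 = 1` then `(b, y) = e (x, 1)`,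
`b = p x`, `g b = 1`, so `x = 1`) and surjective (`e (1, m) = (u, v)`, `u = p x * b`; the element
`e (x⁻¹, 1) * (u, v) = (b, ...)` has the same second component `m`). -/
def S_EXC : Prop := ∀ (K M P Q : Type) [Group K] [Group M] [Group P] [Group Q], FinC K →
  Indecomposable K → Nonempty (K × M ≃* P × Q) →
  (∃ (B : Type) (_ : Group B), Nonempty (P ≃* K × B) ∧ Nonempty (M ≃* B × Q)) ∨
  (∃ (B : Type) (_ : Group B), Nonempty (Q ≃* K × B) ∧ Nonempty (M ≃* P × B))

/-- KR1: one indecomposable factor.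

Proof from EXC by induction on `n`: `(∀ j, L j) ≃* L 0 × (∀ i, L i.succ)`; either `L 0 ≃* K × B'` and
`B ≃* B' × (∀ i, L i.succ)`: then `B'` is trivial, `j = 0`; or `(∀ i, L i.succ) ≃* K × B'` and
`B ≃* L 0 × B'` (so `n ≠ 0`): induction gives `j'`, and `j = j'.succ`
(`Fin.succ_succAbove_zero`, `Fin.succ_succAbove_succ`). -/
def S_KR1 : Prop := ∀ (n : ℕ) (L : Fin (n + 1) → Type) [∀ j, Group (L j)] (K B : Type) [Group K]
  [Group B], (∀ j, Indecomposable (L j)) → FinC K → Indecomposable K →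
  Nonempty ((∀ j, L j) ≃* K × B) →
  ∃ j : Fin (n + 1), Nonempty (L j ≃* K) ∧ Nonempty (B ≃* ∀ i : Fin n, L (j.succAbove i))

/-- KRS: uniqueness of direct decompositions.

Proof from EXC and KR1: induction on `m`. `m = 0`: if `n > 0` then `L 0` is a direct factor of `V`.
Step: `K 0 × (V × ∏ K i.succ) ≃* V' × ∏ L j`; EXC: `K 0` is not a direct factor of `V'`, so
`∏ L j ≃* K 0 × B`, `V × ∏ K i.succ ≃* V' × B`; `n ≠ 0`; KR1; induction; the bijection maps `0` to
`j` and `i.succ` to `j.succAbove (σ' i)`. -/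
def S_KRS : Prop := ∀ (V V' : Type) [Group V] [Group V'] (m n : ℕ) (K : Fin m → Type)
  (L : Fin n → Type) [∀ i, Group (K i)] [∀ j, Group (L j)],
  (∀ i, FinC (K i) ∧ Indecomposable (K i) ∧ ¬ DirF (K i) V') →
  (∀ j, FinC (L j) ∧ Indecomposable (L j) ∧ ¬ DirF (L j) V) →
  Nonempty (V × (∀ i, K i) ≃* V' × (∀ j, L j)) →
  Nonempty (V ≃* V') ∧ ∃ σ : Fin m ≃ Fin n, ∀ i, Nonempty (K i ≃* L (σ i))

/-! ### Trees and free products -/

/-- PP: ping-pong with a base point (no condition on the orders of the subgroups).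

Proof: as `Pool.Agent.H599R3.RH.fp_of_pingpong` (file `Pool/Agent/H599R3/RH/Bs.lean`), but
the injectivity of `CoprodI.lift f` (two subgroups) is proved with
`Monoid.CoprodI.lift_word_ping_pong` (for nonempty reduced words `w : NeWord H i j`:
`lift f w.prod • X k ⊆ X i` for `k ≠ j`): for a word of type `A ... A` the image `1` would map `Y` into
`X`; `B ... B`: `X` into `Y`; `A ... B`: `w = a * w'` with `w'` of type `B ... B` (or empty: not
possible), `w' • x0 ∈ Y`, so `x0 = a • (w' • x0)` contradicts the base point hypothesis; `B ... A`: take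
the inverse word. -/
def S_PP : Prop := ∀ (G α : Type) [Group G] [MulAction G α] (A B : Subgroup G),
  (∃ a ∈ A, a ≠ 1) → (∃ b ∈ B, b ≠ 1) → A ⊔ B = ⊤ →
  ∀ (X Y : α → Prop) (x0 : α), X x0 → (∃ y, Y y) → (∀ x, X x → ¬ Y x) →
  (∀ a ∈ A, a ≠ 1 → ∀ y, Y y → X (a • y) ∧ a • y ≠ x0) →
  (∀ b ∈ B, b ≠ 1 → ∀ x, X x → Y (b • x)) → Splits G

/-- BSA: `bs_amalgam` of `Pool/Agent/H599R3/RH/Bs.lean` without torsion-freeness. Proof from PP:
copy the proof; base point `T.d0 e`; `a • y ≠ T.d0 e` for `side T e y`: otherwise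
`side T (a • e) (T.d0 e)`, but `¬ side T (a • e) (T.d0 e)` is `h2` there. -/
def S_BSA : Prop := ∀ (G V E : Type) [Group G] [MulAction G V] [MulAction G E] (T : Tree G V E)
  (e : E), (∀ g : G, g • e = e → g = 1) → (∀ t : G, ¬ Sim T e (t • T.d0 e) (T.d1 e)) →
  Splits G ∨ ∃ u, ∀ g : G, Sim T e (g • u) u

/-- BSH: `bs_hnn` of `Pool/Agent/H599R3/RH/Bs.lean` without torsion-freeness. Proof from PP: copy
the proof; base point `T.d0 e`; `a • y ≠ T.d0 e`: if `side T e y` then otherwise
`side T (a • e) (T.d0 e)` against `sa0`; if `¬ side T (t⁻¹ • e) y` then otherwise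
`¬ side T ((a * t⁻¹) • e) (T.d0 e)` against `sat`. In the last case `G = zpowers t`; `t` has infinite
order: `side T e v → side T (t⁻¹ • e) v → side T (t⁻¹ • t⁻¹ • e) v → ...` (`nest'`), and `T.d0 e` is in
the second but not in the first; so `t ^ n = 1` with `n > 0` is impossible. -/
def S_BSH : Prop := ∀ (G V E : Type) [Group G] [MulAction G V] [MulAction G E] (T : Tree G V E)
  (e : E), (∀ g : G, g • e = e → g = 1) → ∀ t : G, Sim T e (t • T.d0 e) (T.d1 e) →
  Splits G ∨ InfCyc G

/-- LIN: an element which fixes a vertex and the class of another one.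

Proof: suppose that the set `S` of the edges `k • e` separating `τ` and `u` (finite, `fin_sep`) is
nonempty. `h` permutes `S` (`side T (h • f) τ ↔ side T f τ` because `h • τ = τ`;
`side T (h • f) u ↔ side T (h • f) (h • u) ↔ side T f u`). `S` is linearly ordered by the distance
from `τ`: for `f ∈ S` let `D f` be the set of the `f' ∈ S`, `f' ≠ f`, with
`¬ (side T f' τ ↔ side T f' (T.d0 f))`. For `f ≠ f'` in `S`, by `quad` and `side_ne`: either `f ∈ D f'`
and `D f ⊂ D f'`, or `f' ∈ D f` and `D f' ⊂ D f`. `h` maps `D f` onto `D (h • f)`, so these sets have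
the same cardinality and `h • f = f`; the stabilizer of `f = k • e` is trivial, so `h = 1`. -/
def S_LIN : Prop := ∀ (G V E : Type) [Group G] [MulAction G V] [MulAction G E] (T : Tree G V E)
  (e : E), (∀ g : G, g • e = e → g = 1) → ∀ (τ u : V) (h : G), h ≠ 1 → h • τ = τ →
  Sim T e (h • u) u → Sim T e τ u

/-- KUR: `kurosh` of `Pool/Agent/Q281/KG/Kurosh.lean` without torsion-freeness.

Proof from BSA, BSH, LIN: they give `bs` (`Splits G ∨ InfCyc G ∨ ∃ u, ∀ g, Sim T e (g • u) u`) and
`step1` of `Pool/Agent/H599R3/RH/Bs2.lean` (with `LIN` for the inner claim `hτu`) without `htf`; copy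
`free_case` (only `bs` uses `htf`) and `kurosh` (for trivial `A` take `g = 1`). -/
def S_KUR : Prop := ∀ (A C D : Type) [Group A] [Group C] [Group D] (f : A →* Monoid.Coprod C D),
  Function.Injective f → ¬ Splits A → ¬ InfCyc A →
  (∃ g : Monoid.Coprod C D, ∀ x, ∃ c : C, f x = g * Monoid.Coprod.inl c * g⁻¹) ∨
  (∃ g : Monoid.Coprod C D, ∀ x, ∃ d : D, f x = g * Monoid.Coprod.inr d * g⁻¹)

/-- KSFG: uniqueness of free decompositions. Proof from KUR: copy `Pool/Agent/Q32/DP/KSF.lean`
with `Good A := ¬ Splits A ∧ ¬ InfCyc A ∧ ∃ a : A, a ≠ 1`; in `nofree`, `A` embeds in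
`FreeGroup Unit ≃* Multiplicative ℤ`, and nontrivial subgroups of `ℤ` are infinite cyclic. -/
def S_KSFG : Prop := ∀ (s s' m n : ℕ) (K : Fin m → Type) (L : Fin n → Type)
  [∀ i, Group (K i)] [∀ j, Group (L j)],
  (∀ i, FreelyIndec (K i) ∧ ¬ InfCyc (K i)) → (∀ j, FreelyIndec (L j) ∧ ¬ InfCyc (L j)) →
  Nonempty (Monoid.Coprod (Monoid.CoprodI K) (FreeGroup (Fin s)) ≃*
    Monoid.Coprod (Monoid.CoprodI L) (FreeGroup (Fin s'))) →
  s = s' ∧ ∃ σ : Fin m ≃ Fin n, ∀ i, Nonempty (K i ≃* L (σ i))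

/-- PROPS: products of nontrivial groups. Proof: `Pool.Agent.Q32.DP.FREE.centerless` and
`FREE.indec` (no torsion hypothesis); hence a direct product of nontrivial groups, being directly
decomposable, is not a nontrivial free product; `ℤ` is not a product of two nontrivial groups
(`(a, 1)`, `(1, b)` would have a common nontrivial power). -/
def S_PROPS : Prop := ∀ (A B : Type) [Group A] [Group B], (∃ a : A, a ≠ 1) → (∃ b : B, b ≠ 1) →
  (Centerless (Monoid.Coprod A B) ∧ FinC (Monoid.Coprod A B) ∧ Indecomposable (Monoid.Coprod A B) ∧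
    ¬ InfCyc (Monoid.Coprod A B)) ∧ (FreelyIndec (A × B) ∧ ¬ InfCyc (A × B))

/-! ### The classes -/

/-- The presentation of the trivial group. -/
abbrev tc : Pres := REDD.Tc

/-- The presentation of the infinite cyclic group. -/
abbrev zc : Pres := REDD.Zc

/-- The presentation of the group of order two. -/
def c2 : Pres := (1, [[(0, true), (0, true)]])

/-- The presentation of the infinite dihedral group. -/
def dc : Pres := FPROD.Q2 c2 c2

/-- CODES. Proof: `REDD.triv`, `REDD.cyc`; `PG_lift` (as in `REDD.cyc`) for `c2`; `FPROD.iso` and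
`MulEquiv.coprodCongr` for `dc`. For the last two parts: if `Z2 ≃* Coprod A B` with nontrivial `a`, `b`
then `inl a` and `inr b` are the same element. -/
def S_CODES : Prop := (∀ x : PG tc, x = 1) ∧ InfCyc (PG zc) ∧ Nonempty (PG c2 ≃* Z2) ∧
  Nonempty (PG dc ≃* Dih) ∧ FreelyIndec Z2 ∧ ¬ InfCyc Z2

/-- The hypotheses on the two base classes. -/
structure Hyp (V C : Pres → Prop) : Prop where
  triv : ∀ p, (∀ x : PG p, x = 1) → V p
  int : ∀ p, InfCyc (PG p) → V p
  two : ∀ p, Nonempty (PG p ≃* Z2) → V p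
  dih : ∀ p, Nonempty (PG p ≃* Dih) → V p
  prod : ∀ a b p, V a → V b → Nonempty (PG p ≃* PG a × PG b) → V p
  fac : ∀ a, V a → ∀ (A B : Type) [Group A] [Group B], (∃ x : A, x ≠ 1) → (∃ x : B, x ≠ 1) →
    DirF (Monoid.Coprod A B) (PG a) → Nonempty (A ≃* Z2) ∧ Nonempty (B ≃* Z2)
  base : ∀ k, C k → FinC (PG k) ∧ Indecomposable (PG k) ∧ FreelyIndec (PG k) ∧
    ∀ a, V a → ¬ DirF (PG k) (PG a)

/-- The members of `V` which are nontrivial, not infinite cyclic, not infinite dihedral. -/
def NV (V : Pres → Prop) (p : Pres) : Prop :=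
  V p ∧ (∃ x : PG p, x ≠ 1) ∧ ¬ InfCyc (PG p) ∧ ¬ Nonempty (PG p ≃* Dih)

mutual
/-- Members of `C` and `NV V`, and direct products with at least two factors, one in `V` and
the others free products of the level below. -/
def DD (V C : Pres → Prop) : ℕ → Pres → Prop
  | 0, p => C p ∨ NV V p
  | n + 1, p => C p ∨ NV V p ∨ ∃ (v : Pres) (L : List Pres), V v ∧ (∀ k ∈ L, FF V C n k) ∧
      (2 ≤ L.length ∨ (1 ≤ L.length ∧ ∃ x : PG v, x ≠ 1)) ∧ Nonempty (PG p ≃* PG v × PL L)

/-- Members of `C`, and free products, not dihedral, with at least two factors which are infinite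
cyclic or direct products of the level below. -/
def FF (V C : Pres → Prop) : ℕ → Pres → Prop
  | 0, p => C p
  | n + 1, p => C p ∨ ∃ (s : ℕ) (L : List Pres), (∀ k ∈ L, DD V C n k) ∧ 2 ≤ s + L.length ∧
      (3 ≤ s + L.length ∨ 1 ≤ s ∨ ∃ k ∈ L, ¬ Nonempty (PG k ≃* Z2)) ∧ Nonempty (PG p ≃* FLs s L)
end

/-- The groups built from the two base classes by direct and free products of two groups. -/
inductive Built (V C : Pres → Prop) : Pres → Prop
  | vbase {p : Pres} : V p → Built V C p
  | cbase {p : Pres} : C p → Built V C p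
  | direct {a b p : Pres} : Built V C a → Built V C b → Nonempty (PG p ≃* PG a × PG b) →
      Built V C p
  | free {a b p : Pres} : Built V C a → Built V C b →
      Nonempty (PG p ≃* Monoid.Coprod (PG a) (PG b)) → Built V C p

/-- Direct normal form of level `n`. -/
def DForm (V C : Pres → Prop) (n : ℕ) (p : Pres) : Prop :=
  ∃ (v : Pres) (L : List Pres), V v ∧ (∀ k ∈ L, FF V C n k) ∧ Nonempty (PG p ≃* PG v × PL L)

/-- Free normal form of level `n`. -/
def FForm (V C : Pres → Prop) (n : ℕ) (p : Pres) : Prop :=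
  ∃ (s : ℕ) (L : List Pres), (∀ k ∈ L, DD V C n k) ∧ Nonempty (PG p ≃* FLs s L)

/-- Properties of the members of `DD`. -/
def PD (p : Pres) : Prop := FreelyIndec (PG p) ∧ ¬ InfCyc (PG p)

/-- Properties of the members of `FF`. -/
def PF (V : Pres → Prop) (p : Pres) : Prop :=
  FinC (PG p) ∧ Indecomposable (PG p) ∧ ∀ v, V v → ¬ DirF (PG p) (PG v)

/-- MEM: the members of the classes.

Proof (compare `Pool.Agent.Q32.DP.ASM.members`, `Struct.split_DL`, `Struct.split_FLs`): `C p`: a group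
with finite centre is not infinite cyclic. `NV V p`: if `PG p ≃* Coprod A B` with nontrivial `A`,
`B` then `Hyp.fac` (`PG p ≃* Coprod A B × PUnit`) gives `PG p ≃* Dih`. Direct and free products with at
least two nontrivial factors (the members of `L` are nontrivial by induction; `FreelyIndec` and
`Indecomposable` contain this) are products of two nontrivial groups: PROPS. A member `FLs s L` of
`FF` is not a direct factor of a member of `V`: otherwise, writing `FLs s L ≃* Coprod A B` with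
nontrivial `A`, `B`, `Hyp.fac` gives `FLs s L ≃* Dih ≃* FLs 0 [c2, c2]`, and KSFG gives `s = 0`,
`L.length = 2` and all members of `L` of order two, against the third condition in `FF`. -/
def S_MEM : Prop := ∀ V C : Pres → Prop, Hyp V C → ∀ n : ℕ,
  (∀ p, DD V C n p → PD p) ∧ (∀ p, FF V C n p → PF V p)

/-- DTOF: from direct to free normal forms (compare `Pool/Agent/Q32/DP/NF.lean`, `D_to_F`; the
isomorphisms `f1`, `d1`, `fz`, `fls_append`, ... there can be reused).

Proof: `DD`, `FF` increase with the level. `V` is closed under isomorphism (`Hyp.prod` with `tc`).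
With the form `(v, L)`: if `2 ≤ L.length` or (`1 ≤ L.length` and `v` nontrivial) then
`DD (n + 1) p`, form `(0, [p])`; `L = [k]`, `v` trivial: `PG p ≃* PG k`, `k` in `C` (form `(0, [k])`)
or a free product; `L = []`: `V p`, and `p` is trivial (form `(0, [])`), infinite cyclic (form
`(1, [])`), dihedral (form `(0, [c2, c2])`, `NV V c2`) or in `NV V` (form `(0, [p])`). -/
def S_DTOF : Prop := ∀ V C : Pres → Prop, Hyp V C → ∀ n p, DForm V C n p → ∃ n', FForm V C n' p

/-- FTOD: from free to direct normal forms (compare `Pool/Agent/Q32/DP/NF.lean`, `F_to_D`).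

Proof: with `(s, L)`: if `2 ≤ s + L.length` and the third condition in `FF` holds: `FF (n + 1) p`,
form `(tc, [p])`; if `2 ≤ s + L.length` and the third condition fails, then `s = 0`,
`L = [k, k']`, both of order two, `PG p ≃* Dih`, `V p`, form `(p, [])`; `s = 1`, `L = []`: `V p`, form
`(p, [])`; `s = 0`, `L = [k]`: `k` in `C` (form `(tc, [k])`), in `NV V` (form `(k, [])`) or a direct
product; `s = 0`, `L = []`: form `(tc, [])`. -/
def S_FTOD : Prop := ∀ V C : Pres → Prop, Hyp V C → ∀ n p, FForm V C n p → ∃ n', DForm V C n' p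

/-- NF: normal forms, from DTOF and FTOD (compare `Pool/Agent/Q32/DP/NF.lean`, `t`).
Direct products: `PROD2.P2` (`Hyp.prod`) and append the lists; free products: pass to `FForm` and append
(`fls_append`), back with FTOD. Base: `(p, [])` and `(tc, [p])`. -/
def S_NF : Prop := ∀ V C : Pres → Prop, Hyp V C → ∀ p, Built V C p → ∃ n, DForm V C n p

/-! ### The algorithm -/

/-- `f` solves the isomorphism problem on `C`. -/
def Sol (C : Pres → Prop) (f : Pres × Pres →. Bool) : Prop := ∀ a b, C a → C b →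
  (Nonempty (PG a ≃* PG b) → true ∈ f (a, b)) ∧ (¬ Nonempty (PG a ≃* PG b) → false ∈ f (a, b))

/-- Rules for `DD`. -/
def R0 (V C : Pres → Prop) (g : Pres × Pres →. Bool) (z : List Fact × Fact) : Prop :=
  z.2.1 = 0 ∧ z.2.2.1 = z.2.2.2 ∧ (C z.2.2.1 ∨
    (V z.2.2.1 ∧ false ∈ g (z.2.2.1, tc) ∧ false ∈ g (z.2.2.1, zc) ∧ false ∈ g (z.2.2.1, dc)) ∨
    ∃ (v : Pres) (L : List Pres), V v ∧ (2 ≤ L.length ∨ (1 ≤ L.length ∧ false ∈ g (v, tc))) ∧
      (∀ k ∈ L, ((1, k, k) : Fact) ∈ z.1) ∧ Nonempty (PG z.2.2.1 ≃* PG v × PL L))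

/-- Rules for `FF`. -/
def R1 (C : Pres → Prop) (z : List Fact × Fact) : Prop :=
  z.2.1 = 1 ∧ z.2.2.1 = z.2.2.2 ∧ (C z.2.2.1 ∨ ∃ (s : ℕ) (L : List Pres), 2 ≤ s + L.length ∧
    (3 ≤ s + L.length ∨ 1 ≤ s ∨ ∃ k ∈ L, ((2, k, c2) : Fact) ∈ z.1) ∧
    (∀ k ∈ L, ((0, k, k) : Fact) ∈ z.1) ∧ Nonempty (PG z.2.2.1 ≃* FLs s L))

/-- Rules for non-isomorphism: direct forms. -/
def R2 (V : Pres → Prop) (g : Pres × Pres →. Bool) (z : List Fact × Fact) : Prop :=
  z.2.1 = 2 ∧ ∃ (v : Pres) (L : List Pres) (v' : Pres) (L' : List Pres), V v ∧ V v' ∧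
    (∀ k ∈ L, ((1, k, k) : Fact) ∈ z.1) ∧ (∀ k ∈ L', ((1, k, k) : Fact) ∈ z.1) ∧
    Nonempty (PG z.2.2.1 ≃* PG v × PL L) ∧ Nonempty (PG z.2.2.2 ≃* PG v' × PL L') ∧
    (false ∈ g (v, v') ∨ Lab z.1 L L')

/-- Rules for non-isomorphism: base class and free forms. -/
def R3 (C : Pres → Prop) (f : Pres × Pres →. Bool) (z : List Fact × Fact) : Prop :=
  z.2.1 = 2 ∧ ((C z.2.2.1 ∧ C z.2.2.2 ∧ false ∈ f (z.2.2.1, z.2.2.2)) ∨
    (∃ (s : ℕ) (L : List Pres) (s' : ℕ) (L' : List Pres), (∀ k ∈ L, ((0, k, k) : Fact) ∈ z.1) ∧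
      (∀ k ∈ L', ((0, k, k) : Fact) ∈ z.1) ∧ Nonempty (PG z.2.2.1 ≃* FLs s L) ∧
      Nonempty (PG z.2.2.2 ≃* FLs s' L') ∧ (s ≠ s' ∨ Lab z.1 L L')))

/-- The rules (`f` solves the problem for `C`, `g` for `V`). -/
def StepR (V C : Pres → Prop) (g f : Pres × Pres →. Bool) (z : List Fact × Fact) : Prop :=
  R0 V C g z ∨ R1 C z ∨ R2 V g z ∨ R3 C f z

/-- RE01, RE2, RE3, MONO: the rules are r.e. and monotone (compare `Pool/Agent/Q32/DP/STEPRE.lean`:
`mem_re`, `isoS_re`, `rule01`, `rule2`, `lab_re`, `lab_mono` can be reused, `PRODL.t PROD2.t`,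
`FPROD.t`; `NONMATCH.re_mem hf false` for `false ∈ f (...)`). -/
def S_RE01 : Prop := ∀ (V C : Pres → Prop) (g : Pres × Pres →. Bool), REPred V → REPred C →
  Partrec g → REPred (R0 V C g) ∧ REPred (R1 C)

/-- See RE01. -/
def S_RE2 : Prop := ∀ (V : Pres → Prop) (g : Pres × Pres →. Bool), REPred V → Partrec g →
  REPred (R2 V g)

/-- See RE01. -/
def S_RE3 : Prop := ∀ (C : Pres → Prop) (f : Pres × Pres →. Bool), REPred C → Partrec f →
  REPred (R3 C f)

/-- See RE01. -/
def S_MONO : Prop := ∀ (V C : Pres → Prop) (g f : Pres × Pres →. Bool) (l l' : List Fact)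
  (e : Fact), (∀ x ∈ l, x ∈ l') → StepR V C g f (l, e) → StepR V C g f (l', e)

/-- The meaning of the facts. -/
def Mean (V C : Pres → Prop) (e : Fact) : Prop :=
  (e.1 = 0 → ∃ n, DD V C n e.2.1) ∧ (e.1 = 1 → ∃ n, FF V C n e.2.1) ∧
    (e.1 = 2 → ¬ Nonempty (PG e.2.1 ≃* PG e.2.2))

/-- SND01: soundness of the rules for membership (compare `Pool/Agent/Q32/DP/SOUND.lean`).
Levels increase. `false ∈ g (v, tc)`: `v` is nontrivial, since otherwise `true ∈ g (v, tc)`
(`tc` is in `V`), etc. (CODES). -/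
def S_SND01 : Prop := ∀ (V C : Pres → Prop) (g : Pres × Pres →. Bool), Hyp V C → Sol V g →
  ∀ l e, (∀ x ∈ l, Mean V C x) → (R0 V C g (l, e) ∨ R1 C (l, e)) → Mean V C e

/-- SND23: soundness of the rules for non-isomorphism, from MEM, KRS, KSFG (compare
`Pool/Agent/Q32/DP/SOUND.lean`; `lab_no` there for the labels). -/
def S_SND23 : Prop := ∀ (V C : Pres → Prop) (g f : Pres × Pres →. Bool), Hyp V C → Sol V g →
  Sol C f → ∀ l e, (∀ x ∈ l, Mean V C x) → (R2 V g (l, e) ∨ R3 C f (l, e)) → Mean V C e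

/-- DST: direct forms (compare `dstep` in `Pool/Agent/Q32/DP/COMPL.lean`; `labs` there can be
reused). -/
def S_DST : Prop := ∀ (V C : Pres → Prop) (g f : Pres × Pres →. Bool), Sol V g →
  ∀ Der : Fact → Prop, (∀ l e, (∀ x ∈ l, Der x) → StepR V C g f (l, e) → Der e) → ∀ n,
  (∀ p, FF V C n p → Der (1, p, p)) →
  (∀ p q, FF V C n p → FF V C n q → ¬ Nonempty (PG p ≃* PG q) → Der (2, p, q)) →
  ∀ p q, DForm V C n p → DForm V C n q → ¬ Nonempty (PG p ≃* PG q) → Der (2, p, q)

/-- FST: free forms (compare `fstep` in `Pool/Agent/Q32/DP/COMPL.lean`). -/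
def S_FST : Prop := ∀ (V C : Pres → Prop) (g f : Pres × Pres →. Bool),
  ∀ Der : Fact → Prop, (∀ l e, (∀ x ∈ l, Der x) → StepR V C g f (l, e) → Der e) → ∀ n,
  (∀ p, DD V C n p → Der (0, p, p)) →
  (∀ p q, DD V C n p → DD V C n q → ¬ Nonempty (PG p ≃* PG q) → Der (2, p, q)) →
  ∀ p q, FForm V C n p → FForm V C n q → ¬ Nonempty (PG p ≃* PG q) → Der (2, p, q)

/-- CMP: completeness, from DST and FST (compare `all`, `t` in `Pool/Agent/Q32/DP/COMPL.lean`).

Proof: by induction on `n` four statements: members of `DD n`: `Der (0, p, p)`; members of `FF n`: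
`Der (1, p, p)`; non-isomorphic members of `DD n`, of `FF n`: `Der (2, p, q)`. First `FF 0` (members of
`C`, rule R3), then `DD 0` (all members of `DD (n + 1)` and of `DD 0` have direct forms with members
in `FF n`, `FF 0`: `(tc, [p])` for `C p`, `(p, [])` for `NV V p`). `Der (1, p, p)` for `FF (n + 1)` uses
`Der (2, k, c2)` for `k ∈ DD n` not of order two (`c2` is in `NV V`, so in `DD n`; CODES). -/
def S_CMP : Prop := ∀ (V C : Pres → Prop) (g f : Pres × Pres →. Bool), Hyp V C → Sol V g →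
  Sol C f → ∀ Der : Fact → Prop, (∀ l e, (∀ x ∈ l, Der x) → StepR V C g f (l, e) → Der e) →
  ∀ n p q, DForm V C n p → DForm V C n q → ¬ Nonempty (PG p ≃* PG q) → Der (2, p, q)

/-- The main theorem. -/
def S_MAIN : Prop := ∀ V C : Pres → Prop, REPred V → REPred C → Hyp V C → Solvable V →
  Solvable C → Solvable (Built V C)

end Pool.Agent.T2h30.IP
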