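import Pool.Agent.T2h30.IP.Stm

set_option autoImplicit false

/-! # FIT: Fitting's lemma for directly indecomposable groups with finite centre (helper3) -/

namespace Pool.Agent.T2h30.IP.FIT

open Pool.Agent.Q223.IS Pool.Agent.Q32.DP Pool.Agent.T2h30.IP

variable {K : Type} [Group K]

/-- Normal endomorphisms. -/
def Nrm (φ : K →* K) : Prop := ∀ g x : K, φ (g * x * g⁻¹) = g * φ x * g⁻¹

theorem comm1 {φ : K →* K} (h : Nrm φ) (x y : K) : ((φ x)⁻¹ * x) * φ y = φ y * ((φ x)⁻¹ * x) := by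
  have h1 : φ x * φ y * (φ x)⁻¹ = x * φ y * x⁻¹ := by
    rw [← h x y, map_mul, map_mul, map_inv]
  have h2 : x * φ y = φ x * φ y * (φ x)⁻¹ * x := by
    rw [h1]; group
  rw [mul_assoc, h2]; group

theorem cen {φ : K →* K} (h : Nrm φ) (x : K) : φ ((φ x)⁻¹ * x) ∈ Subgroup.center K := by
  rw [Subgroup.mem_center_iff]
  intro y
  have e1 : φ ((φ x)⁻¹ * x) = (φ (φ x))⁻¹ * φ x := by rw [map_mul, map_inv]
  -- y = φ y * ((φ y)⁻¹ * y)
  have c1 : φ ((φ x)⁻¹ * x) * φ y = φ y * φ ((φ x)⁻¹ * x) := by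
    rw [e1]; exact comm1 h (φ x) y
  have c2 := comm1 h y ((φ x)⁻¹ * x)
  generalize φ ((φ x)⁻¹ * x) = w at c1 c2 ⊢
  calc y * w = φ y * (((φ y)⁻¹ * y) * w) := by group
    _ = φ y * (w * ((φ y)⁻¹ * y)) := by rw [c2]
    _ = (φ y * w) * ((φ y)⁻¹ * y) := by group
    _ = (w * φ y) * ((φ y)⁻¹ * y) := by rw [c1]
    _ = w * y := by group

theorem map_cen {φ : K →* K} (h : Nrm φ) {z : K} (hz : z ∈ Subgroup.center K) :
    φ z ∈ Subgroup.center K := by
  rw [Subgroup.mem_center_iff] at hz ⊢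
  intro g
  have h1 := h g z
  rw [hz g, mul_assoc, mul_inv_cancel, mul_one] at h1
  calc g * φ z = g * φ z * g⁻¹ * g := by group
    _ = φ z * g := by rw [← h1]

theorem split_part {φ : K →* K} (x : K) : φ x = φ (φ x) * φ ((φ x)⁻¹ * x) := by
  rw [← map_mul]; congr 1; group

/-- Decomposition. -/
theorem dec {ψ : K →* K} (h : Nrm ψ) (hK : Indecomposable K)
    (hker : ∀ x, ψ (ψ x) = 1 → ψ x = 1) (him : ∀ x, ∃ y, ψ (ψ y) = ψ x) :
    (∀ x, ψ x = 1) ∨ Function.Bijective ψ := by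
  have nR : ψ.range.Normal := by
    refine ⟨?_⟩
    rintro _ ⟨x, rfl⟩ g
    exact ⟨g * x * g⁻¹, h g x⟩
  have dis : Disjoint ψ.range ψ.ker := by
    rw [Subgroup.disjoint_def]
    rintro _ ⟨x, rfl⟩ hx
    exact hker x hx
  have com : ∀ (a : ψ.range) (b : ψ.ker), Commute (ψ.range.subtype a) (ψ.ker.subtype b) :=
    fun a b => Subgroup.commute_of_normal_of_disjoint _ _ nR inferInstance dis _ _ a.2 b.2
  let F : ψ.range × ψ.ker →* K := MonoidHom.noncommCoprod ψ.range.subtype ψ.ker.subtype com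
  have hF : Function.Bijective F := by
    constructor
    · rw [injective_iff_map_eq_one]
      rintro ⟨⟨a, ha⟩, ⟨b, hb⟩⟩ hab
      have hab' : a * b = 1 := hab
      have ha' : a ∈ ψ.ker := by
        have : a = b⁻¹ := eq_inv_of_mul_eq_one_left hab'
        rw [this]; exact inv_mem hb
      have a1 : a = 1 := (Subgroup.disjoint_def.mp dis) ha ha'
      have b1 : b = 1 := by rw [a1, one_mul] at hab'; exact hab'
      subst a1; subst b1; rfl
    · intro x
      obtain ⟨y, hy⟩ := him x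
      refine ⟨(⟨ψ y, y, rfl⟩, ⟨(ψ y)⁻¹ * x, ?_⟩), ?_⟩
      · rw [MonoidHom.mem_ker, map_mul, map_inv, hy, inv_mul_cancel]
      · show ψ y * ((ψ y)⁻¹ * x) = x
        group
  rcases hK.2 ψ.range ψ.ker ⟨(MulEquiv.ofBijective F hF).symm⟩ with h1 | h1
  · left
    intro x
    have := h1 ⟨ψ x, x, rfl⟩
    exact congrArg Subtype.val this
  · right
    constructor
    · rw [injective_iff_map_eq_one]
      intro a ha
      exact congrArg Subtype.val (h1 ⟨a, ha⟩)
    · intro x
      obtain ⟨y, hy⟩ := him x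
      have hk : (ψ y)⁻¹ * x ∈ ψ.ker := by
        rw [MonoidHom.mem_ker, map_mul, map_inv, hy, inv_mul_cancel]
      have : (ψ y)⁻¹ * x = 1 := congrArg Subtype.val (h1 ⟨_, hk⟩)
      exact ⟨y, (inv_mul_eq_one.mp this)⟩

/-- Stabilisation. -/
theorem stab {φ : K →* K} (h : Nrm φ) (hid : ∀ z ∈ Subgroup.center K, φ (φ z) = φ z)
    (hK : Indecomposable K) : (∀ x, φ (φ x) = 1) ∨ Function.Bijective (fun x => φ (φ x)) := by
  have hN : Nrm (φ.comp φ) := by
    intro g x
    show φ (φ (g * x * g⁻¹)) = g * φ (φ x) * g⁻¹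
    rw [h, h]
  refine dec (ψ := φ.comp φ) hN hK ?_ ?_
  · -- kernels
    have key : ∀ x, φ (φ (φ x)) = 1 → φ (φ x) = 1 := by
      intro x hx
      have hz := cen h x
      have e1 : φ (φ x) = φ (φ (φ x)) * φ (φ ((φ x)⁻¹ * x)) := by
        conv_lhs => rw [split_part (φ := φ) x]
        rw [map_mul]
      rw [hx, one_mul] at e1
      have e2 := hid _ hz
      rw [← e1] at e2
      rw [← e2]; exact hx
    intro x hx
    change φ (φ (φ (φ x))) = 1 at hx
    show φ (φ x) = 1
    exact key x (key (φ x) hx)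
  · intro x
    have key : ∀ x, ∃ y, φ (φ (φ y)) = φ (φ x) := by
      intro x
      have hz := cen h x
      have e1 : φ (φ x) = φ (φ (φ x)) * φ (φ ((φ x)⁻¹ * x)) := by
        conv_lhs => rw [split_part (φ := φ) x]
        rw [map_mul]
      generalize φ ((φ x)⁻¹ * x) = z at hz e1
      have e2 : φ z = φ (φ (φ z)) := by rw [hid z hz, hid z hz]
      rw [e2] at e1
      exact ⟨x * z, by rw [map_mul, map_mul, map_mul, ← e1]⟩
    obtain ⟨y, hy⟩ := key x
    obtain ⟨w, hw⟩ := key y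
    refine ⟨w, ?_⟩
    show φ (φ (φ (φ w))) = φ (φ x)
    rw [hw, hy]

/-- Iterates as homomorphisms. -/
def itr (θ : K →* K) : ℕ → (K →* K)
  | 0 => MonoidHom.id K
  | n + 1 => (itr θ n).comp θ

theorem itr_coe (θ : K →* K) (n : ℕ) : ⇑(itr θ n) = (⇑θ)^[n] := by
  induction n with
  | zero => rfl
  | succ n ih =>
    rw [Function.iterate_succ, ← ih]; rfl

theorem nrm_pow {θ : K →* K} (h : Nrm θ) (n : ℕ) : Nrm (itr θ n) := by
  induction n with
  | zero => intro g x; rfl
  | succ n ih =>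
    intro g x
    show (itr θ n) (θ (g * x * g⁻¹)) = g * (itr θ n) (θ x) * g⁻¹
    rw [h]
    exact ih g (θ x)

/-- Some positive iterate is idempotent. -/
theorem idem {Z : Type} [Finite Z] (f : Z → Z) : ∃ m : ℕ, 0 < m ∧ ∀ z, f^[m] (f^[m] z) = f^[m] z := by
  obtain ⟨a, b, hab, hf⟩ := Finite.exists_ne_map_eq_of_infinite (fun n : ℕ => f^[n])
  wlog hlt : a < b generalizing a b
  · exact this b a (Ne.symm hab) hf.symm (lt_of_le_of_ne (not_lt.mp hlt) (Ne.symm hab))
  obtain ⟨p, rfl⟩ := Nat.exists_eq_add_of_lt hlt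
  have hf' : f^[a] = f^[a + p + 1] := hf
  have h1 : ∀ k, a ≤ k → f^[k + (p + 1)] = f^[k] := by
    intro k hk
    obtain ⟨j, rfl⟩ := Nat.exists_eq_add_of_le hk
    have : a + j + (p + 1) = j + (a + p + 1) := by ring
    rw [this, Function.iterate_add, ← hf', ← Function.iterate_add, add_comm]
  have h2 : ∀ i k, a ≤ k → f^[k + i * (p + 1)] = f^[k] := by
    intro i
    induction i with
    | zero => intro k hk; simp
    | succ i ih =>
      intro k hk
      have : k + (i + 1) * (p + 1) = (k + i * (p + 1)) + (p + 1) := by ring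
      rw [this, h1 _ (by omega), ih k hk]
  refine ⟨(a + 1) * (p + 1), by positivity, fun z => ?_⟩
  rw [← Function.iterate_add_apply, h2 (a + 1) _ (by nlinarith)]

theorem t_FIT : S_FIT := by
  intro K _ θ hfin hK h
  have : Finite (Subgroup.center K) := hfin
  have hθ : Nrm θ := h
  let f : Subgroup.center K → Subgroup.center K := fun z => ⟨θ z.1, map_cen hθ z.2⟩
  obtain ⟨m, hm, hidm⟩ := idem f
  have hval : ∀ (n : ℕ) (z : Subgroup.center K), (f^[n] z).1 = (⇑θ)^[n] z.1 := by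
    intro n
    induction n with
    | zero => intro z; rfl
    | succ n ih => intro z; rw [Function.iterate_succ_apply, Function.iterate_succ_apply, ih]
  have hc : ⇑(itr θ m) = (⇑θ)^[m] := itr_coe θ m
  have hN := nrm_pow hθ m
  have hid : ∀ z ∈ Subgroup.center K, itr θ m (itr θ m z) = itr θ m z := by
    intro z hz
    rw [hc]
    have := congrArg Subtype.val (hidm ⟨z, hz⟩)
    rw [hval, hval] at this
    exact this
  rcases stab hN hid hK with h1 | h1
  · right
    refine ⟨m + m, fun x => ?_⟩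
    rw [Function.iterate_add_apply, ← hc]
    exact h1 x
  · left
    have h2 : (fun x => itr θ m (itr θ m x)) = (⇑θ)^[m + m] := by
      funext x
      rw [Function.iterate_add_apply, ← hc]
    rw [h2] at h1
    obtain ⟨k, rfl⟩ : ∃ k, m = k + 1 := ⟨m - 1, by omega⟩
    constructor
    · have h3 : (⇑θ)^[k + 1 + (k + 1)] = (⇑θ)^[k + 1 + k] ∘ ⇑θ := by
        rw [← Function.iterate_succ]; congr 1
      rw [h3] at h1
      exact Function.Injective.of_comp h1.1
    · have h3 : (⇑θ)^[k + 1 + (k + 1)] = ⇑θ ∘ (⇑θ)^[k + 1 + k] := by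
        rw [← Function.iterate_succ']; congr 1
      rw [h3] at h1
      exact Function.Surjective.of_comp h1.2

end Pool.Agent.T2h30.IP.FIT
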