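import Pool.Agent.T2h30.IP.Lev

set_option autoImplicit false

/-!
# NF (helper25): normal forms
-/

namespace Pool.Agent.T2h30.IP

open Pool.Agent.Q223.IS Pool.Agent.Q32.DP Monoid

theorem t_NF (hc : S_CODES) (hDF : S_DTOF) (hFD : S_FTOD) : S_NF := by
  intro V C hV p hp
  have htc := LEV.tcV hV hc
  induction hp with
  | vbase h => exact ⟨0, _, [], h, by simp, ⟨(NF.prodTriv NF.pl0).symm⟩⟩
  | @cbase p h =>
    have hk0 : FF V C 0 p := h
    exact ⟨0, tc, [p], htc, NF.mem_one hk0, ⟨((NF.trivProd hc.1).trans (LEV.d1 p)).symm⟩⟩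
  | direct _ _ h iha ihb =>
    obtain ⟨e⟩ := h
    obtain ⟨n, v, L, hv, hL, ⟨ea⟩⟩ := iha
    obtain ⟨n', v', L', hv', hL', ⟨eb⟩⟩ := ihb
    obtain ⟨f⟩ := PROD2.iso v v'
    obtain ⟨g⟩ := NF.pl_append L L'
    refine ⟨max n n', PROD2.P2 v v', L ++ L', hV.prod v v' _ hv hv' ⟨f⟩, ?_, ⟨?_⟩⟩
    · intro k hk
      rcases List.mem_append.1 hk with hk | hk
      · exact LEV.monoF V C (le_max_left _ _) (hL k hk)
      · exact LEV.monoF V C (le_max_right _ _) (hL' k hk)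
    · exact e.trans ((ea.prodCongr eb).trans
        ((MulEquiv.prodProdProdComm _ _ _ _).trans (f.symm.prodCongr g.symm)))
  | free _ _ h iha ihb =>
    obtain ⟨e⟩ := h
    obtain ⟨na, ha⟩ := iha
    obtain ⟨nb, hb⟩ := ihb
    obtain ⟨n, m, L, hL, ⟨ea⟩⟩ := hDF V C hV _ _ ha
    obtain ⟨n', m', L', hL', ⟨eb⟩⟩ := hDF V C hV _ _ hb
    obtain ⟨g⟩ := NF.fls_append m m' L L'
    apply hFD V C hV (max n n')
    refine ⟨m + m', L ++ L', ?_, ⟨?_⟩⟩
    · intro k hk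
      rcases List.mem_append.1 hk with hk | hk
      · exact LEV.monoD V C (le_max_left _ _) (hL k hk)
      · exact LEV.monoD V C (le_max_right _ _) (hL' k hk)
    · exact e.trans ((MulEquiv.coprodCongr ea eb).trans g.symm)

end Pool.Agent.T2h30.IP
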